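import Pool.Agent.Helper20.APD.Code
import Pool.Agent.Helper28.Ram.Final

set_option autoImplicit false

/-!
# The machines on numbers form a family computed in linear space
-/

namespace Pool.Agent.Helper20.APD

open Pool.Agent.Helper65.LinSpace Pool.Agent.Helper78.Mpc Pool.Agent.Helper28.Ram Finset

variable {α : Type} [Ctx α]

theorem LS.mkX {B k ph l s p : α → ℕ} (hB : LS B) (hk : LS k) (hph : LS ph) (hl : LS l)
    (hs : LS s) (hp : LS p) :
    LS (fun a => mkX (B a) (k a) (ph a) (l a) (s a) (p a)) := by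
  unfold APD.mkX
  fun_prop

theorem LS.kX {X : α → ℕ} (hX : LS X) : LS (fun a => kX (X a)) := by
  unfold APD.kX
  fun_prop

theorem LS.phX {X : α → ℕ} (hX : LS X) : LS (fun a => phX (X a)) := by
  unfold APD.phX
  fun_prop

theorem LS.lX {X : α → ℕ} (hX : LS X) : LS (fun a => lX (X a)) := by
  unfold APD.lX
  fun_prop

theorem LS.sX {B X : α → ℕ} (hB : LS B) (hX : LS X) : LS (fun a => sX (B a) (X a)) := by
  unfold APD.sX
  fun_prop

theorem LS.pX {B X : α → ℕ} (hB : LS B) (hX : LS X) : LS (fun a => pX (B a) (X a)) := by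
  unfold APD.pX
  fun_prop

theorem LS.accN {v : α → ℕ} (hv : LS v) : LS (fun a => accN (v a)) := by
  unfold Pool.Agent.Helper78.Mpc.accN
  fun_prop

/-- A family of functions on numbers computed in linear space. -/
structure NF.IsLS (F : α → NF) : Prop where
  ad : LS (fun z : α × ℕ => (F z.1).ad z.2)
  kd : LS (fun z : α × ℕ × ℕ × ℕ => (F z.1).kd z.2.1 z.2.2.1 z.2.2.2)
  nq : LS (fun z : α × ℕ × ℕ × ℕ => (F z.1).nq z.2.1 z.2.2.1 z.2.2.2)
  nz : LS (fun z : α × ℕ × ℕ × ℕ => (F z.1).nz z.2.1 z.2.2.1 z.2.2.2)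

section

variable {F : α → NF} (hF : NF.IsLS F) {B : α → ℕ} (hB : LS B) {β : Type} [Ctx β] {π : β → α}
  (hπ : LS π)

include hF hπ

theorem ls_ad {q : β → ℕ} (hq : LS q) : LS (fun b => (F (π b)).ad (q b)) :=
  LS.comp (f := fun b => (π b, q b)) hF.ad (by fun_prop)

theorem ls_kd {q z l : β → ℕ} (hq : LS q) (hz : LS z) (hl : LS l) :
    LS (fun b => (F (π b)).kd (q b) (z b) (l b)) :=
  LS.comp (f := fun b => (π b, q b, z b, l b)) hF.kd (by fun_prop)

theorem ls_nq {q z l : β → ℕ} (hq : LS q) (hz : LS z) (hl : LS l) :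
    LS (fun b => (F (π b)).nq (q b) (z b) (l b)) :=
  LS.comp (f := fun b => (π b, q b, z b, l b)) hF.nq (by fun_prop)

theorem ls_nz {q z l : β → ℕ} (hq : LS q) (hz : LS z) (hl : LS l) :
    LS (fun b => (F (π b)).nz (q b) (z b) (l b)) :=
  LS.comp (f := fun b => (π b, q b, z b, l b)) hF.nz (by fun_prop)

include hB

theorem ls_AA {X : β → ℕ} (hX : LS X) : LS (fun b => AA (F (π b)) (B (π b)) (X b)) := by
  have hB' : LS (fun b => B (π b)) := LS.comp (g := B) hB hπ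
  have h1 := LS.kX hX
  have h2 := LS.phX hX
  have h3 := LS.sX hB' hX
  have h4 := LS.pX hB' hX
  have h5 := ls_ad hF hπ (q := fun b => sX (B (π b)) (X b) % B (π b)) (by fun_prop)
  unfold AA
  exact LS.ifz h2 (LS.ifz (LS.eq01 h1 (LS.const 2)) (LS.const 0) h5)
    (LS.ifz (LS.eq01 h1 (LS.const 2)) h4 h3)

theorem ls_N0 {q z l s p : β → ℕ} (hq : LS q) (hz : LS z) (hl : LS l) (hs : LS s) (hp : LS p) :
    LS (fun b => N0 (F (π b)) (B (π b)) (q b) (z b) (l b) (s b) (p b)) := by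
  have hB' : LS (fun b => B (π b)) := LS.comp (g := B) hB hπ
  have h1 := ls_kd hF hπ hq hz hl
  have h2 := ls_nq hF hπ hq hz hl
  have h3 := ls_nz hF hπ hq hz hl
  unfold N0
  exact LS.ifz h1 (LS.const 0) (LS.ifz (LS.sub h1 (LS.const 1))
    (LS.ifz (LS.accN h2) (LS.mkX hB' (LS.const 3) (LS.const 0) (LS.const 0) h2 hp) (LS.const 1))
    (LS.mkX hB' (LS.const 2) (LS.const 0) (LS.const 0) (LS.add h2 (LS.mul hB' h3)) hs))

theorem ls_NN {X v : β → ℕ} (hX : LS X) (hv : LS v) :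
    LS (fun b => NN (F (π b)) (B (π b)) (X b) (v b)) := by
  have hB' : LS (fun b => B (π b)) := LS.comp (g := B) hB hπ
  have h1 := LS.kX hX
  have h2 := LS.phX hX
  have h3 := LS.sX hB' hX
  have h4 := LS.pX hB' hX
  have h5 := LS.lX hX
  have hm : LS (fun b => sX (B (π b)) (X b) % B (π b)) := LS.mod h3 hB'
  have hd : LS (fun b => sX (B (π b)) (X b) / B (π b)) := LS.div h3 hB'
  have h6 := ls_N0 hF hB hπ hm hd h5 h3 h4
  have hv4 : LS (fun b => v b % 4) := LS.mod hv (LS.const 4)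
  have hvd : LS (fun b => v b / 4) := LS.div hv (LS.const 4)
  unfold NN
  exact LS.ifz (LS.div h1 (LS.const 2)) hX (LS.ifz h2
    (LS.mkX hB' h1 (LS.const 1) (LS.mod hv (LS.const 9)) h3 h4)
    (LS.ifz (LS.sub h1 (LS.const 2))
      (LS.ifz (LS.accN hm)
        (LS.ifz hv4 h6 (LS.ifz (LS.sub hv4 (LS.const 2)) (LS.const 0)
          (LS.mkX hB' (LS.const 3) (LS.const 0) (LS.const 0) hvd h4)))
        (LS.const 1))
      (LS.ifz h4 (LS.const 0)
        (LS.ifz hv4 (LS.const 0) (LS.ifz (LS.sub hv4 (LS.const 1))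
          (LS.mkX hB' (LS.const 2) (LS.const 0) (LS.const 0)
            (LS.add h3 (LS.mul hB' (LS.div h4 hB'))) h4)
          (LS.ifz (LS.sub hv4 (LS.const 2))
            (LS.mkX hB' (LS.const 3) (LS.const 0) (LS.const 0) h3 hvd) (LS.const 0)))))))

omit hB in
theorem ls_W0 {q z l p v : β → ℕ} (hq : LS q) (hz : LS z) (hl : LS l) (hp : LS p) (hv : LS v) :
    LS (fun b => W0 (F (π b)) (q b) (z b) (l b) (p b) (v b)) := by
  have h1 := ls_kd hF hπ hq hz hl
  have h2 := ls_nq hF hπ hq hz hl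
  unfold W0
  exact LS.ifz h1 hv (LS.ifz (LS.sub h1 (LS.const 1))
    (LS.ifz (LS.accN h2) (LS.add (LS.const 3) (LS.mul (LS.const 4) h2)) hv)
    (LS.ifz (LS.sub h1 (LS.const 2)) (LS.add (LS.const 2) (LS.mul (LS.const 4) hp))
      (LS.add (LS.const 1) (LS.mul (LS.const 4) hp))))

theorem ls_WW {X v : β → ℕ} (hX : LS X) (hv : LS v) :
    LS (fun b => WW (F (π b)) (B (π b)) (X b) (v b)) := by
  have hB' : LS (fun b => B (π b)) := LS.comp (g := B) hB hπ
  have h1 := LS.kX hX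
  have h2 := LS.phX hX
  have h3 := LS.sX hB' hX
  have h4 := LS.pX hB' hX
  have h5 := LS.lX hX
  have hm : LS (fun b => sX (B (π b)) (X b) % B (π b)) := LS.mod h3 hB'
  have hd : LS (fun b => sX (B (π b)) (X b) / B (π b)) := LS.div h3 hB'
  have h6 := ls_W0 hF hπ hm hd h5 h4 hv
  have hv4 : LS (fun b => v b % 4) := LS.mod hv (LS.const 4)
  unfold WW
  exact LS.ifz (LS.div h1 (LS.const 2)) hv (LS.ifz h2 hv
    (LS.ifz (LS.sub h1 (LS.const 2))
      (LS.ifz (LS.accN hm) (LS.ifz hv4 h6 hv) hv)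
      (LS.ifz h4 hv
        (LS.ifz hv4 hv (LS.ifz (LS.sub hv4 (LS.const 1)) (LS.add hv (LS.const 1))
          (LS.ifz (LS.sub hv4 (LS.const 2)) (LS.add (LS.const 3) (LS.mul (LS.const 4) h3)) hv))))))

end

/-! ### The family -/

/-- The number of bits. -/
def sg (n S : ℕ) : ℕ := min S (gR n - 1) + 1

/-- The length of the words. -/
def tl (n S : ℕ) : ℕ := (sg n S - 11) / 4

/-- The machines. -/
def machP (eA eN eO ini B0 st bo x y S : ℕ) : Mach :=
  machA (nf eA eN eO ini B0 (tl (Nat.log 2 x) S) (LW (Nat.log 2 x))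
    (2 ^ (2 * ll (Nat.log 2 x))) (CR x)) (2 ^ (tl (Nat.log 2 x) S + 1)) (sg (Nat.log 2 x) S)
    (gR (Nat.log 2 x) / sg (Nat.log 2 x) S) (gR (Nat.log 2 x))
    (capN (tl (Nat.log 2 x) S) st) (capN (tl (Nat.log 2 x) S) bo) (lcN x y)

theorem tl_le (n S : ℕ) : tl n S + 1 ≤ sg n S := by
  unfold tl sg
  omega

theorem LSM_machP {eA eN eO ini B0 st bo x y S : α → ℕ} (heA : LS eA) (heN : LS eN)
    (heO : LS eO) (hini : LS ini) (hB0 : LS B0) (hst : LS st) (hbo : LS bo) (hx : LS x)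
    (hy : LS y) (hS : LS S) :
    LSM (fun z => machP (eA z) (eN z) (eO z) (ini z) (B0 z) (st z) (bo z) (x z) (y z) (S z))
      (fun z => CR (x z)) := by
  have hn : LS (fun z => Nat.log 2 (x z)) := LS.log2 hx
  have hg : LS (fun z => gR (Nat.log 2 (x z))) := Pool.Agent.Helper59.Ram.LS_gR hn
  have hσ : LS (fun z => sg (Nat.log 2 (x z)) (S z)) := by
    unfold sg
    exact LS.add (LS.min hS (LS.sub hg (LS.const 1))) (LS.const 1)
  have hT : LS (fun z => tl (Nat.log 2 (x z)) (S z)) := by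
    unfold tl
    exact LS.div (LS.sub hσ (LS.const 11)) (LS.const 4)
  have hC : LS (fun z => CR (x z)) := Pool.Agent.Helper59.Ram.LS_CR hx
  have hΛ : LS (fun z => LW (Nat.log 2 (x z))) := LS.LW hn
  have hβ : LS (fun z => 2 ^ (2 * ll (Nat.log 2 (x z)))) :=
    LS.pow_of_le (f := fun _ => 2) (by fun_prop) (by fun_prop) hC
      fun z => Pool.Agent.Helper59.Ram.pow_ll_le (x z)
  have hβ0 : ∀ z, 0 < 2 ^ (2 * ll (Nat.log 2 (x z))) := fun z => by positivity
  have hb : ∀ z, (2 ^ (2 * ll (Nat.log 2 (x z)))) ^ LW (Nat.log 2 (x z)) ≤ CR (x z) :=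
    fun z => (beta_pow_le (x z)).trans (Pool.Agent.Helper59.Ram.CM_le_CR (x z))
  have hb1 : ∀ z, 2 ^ sg (Nat.log 2 (x z)) (S z) ≤ CR (x z) := fun z =>
    Pool.Agent.Helper59.Ram.pow_S_le (x z) (S z)
  have hb2 : ∀ z, 2 ^ (tl (Nat.log 2 (x z)) (S z) + 1) ≤ CR (x z) := fun z =>
    (Nat.pow_le_pow_right (by norm_num) (tl_le _ _)).trans (hb1 z)
  have hB : LS (fun z => 2 ^ (tl (Nat.log 2 (x z)) (S z) + 1)) :=
    LS.pow_of_le (f := fun _ => 2) (by fun_prop) (LS.add hT (LS.const 1)) hC hb2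
  have hP : LS (fun z => 2 ^ sg (Nat.log 2 (x z)) (S z)) :=
    LS.pow_of_le (f := fun _ => 2) (by fun_prop) hσ hC hb1
  -- functions of a further argument
  have hfn : ∀ {β : Type} [Ctx β] (π : β → α) (e : α → ℕ) (u : β → ℕ), LS π → LS e → LS u →
      LS (fun b => capN (tl (Nat.log 2 (x (π b))) (S (π b)))
        (fnN (e (π b)) (tl (Nat.log 2 (x (π b))) (S (π b)))
        (LW (Nat.log 2 (x (π b)))) (2 ^ (2 * ll (Nat.log 2 (x (π b))))) (CR (x (π b)))
        (u b))) := by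
    intro β _ π e u hπ he hu
    have h1 : LS (fun b => e (π b)) := LS.comp (g := e) he hπ
    have h2 : LS (fun b => tl (Nat.log 2 (x (π b))) (S (π b))) :=
      LS.comp (g := fun z => tl (Nat.log 2 (x z)) (S z)) hT hπ
    have h3 : LS (fun b => LW (Nat.log 2 (x (π b)))) :=
      LS.comp (g := fun z => LW (Nat.log 2 (x z))) hΛ hπ
    have h4 : LS (fun b => 2 ^ (2 * ll (Nat.log 2 (x (π b))))) :=
      LS.comp (g := fun z => 2 ^ (2 * ll (Nat.log 2 (x z)))) hβ hπ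
    have h5 : LS (fun b => CR (x (π b))) := LS.comp (g := fun z => CR (x z)) hC hπ
    exact LS.capN h2 (LS.fnN h1 h2 h3 h4 h5 hu h5 (fun b => hβ0 (π b)) (fun b => hb (π b))
      (fun b => hb2 (π b)))
  have harg : LS (fun b : α × ℕ × ℕ × ℕ => argN (ini b.1) (B0 b.1) b.2.1 b.2.2.1 b.2.2.2) := by
    unfold argN
    have h1 : LS (fun b : α × ℕ × ℕ × ℕ => ini b.1) := LS.comp (g := ini) hini (by fun_prop)
    have h2 : LS (fun b : α × ℕ × ℕ × ℕ => B0 b.1) := LS.comp (g := B0) hB0 (by fun_prop)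
    fun_prop
  have hN := hfn (fun b : α × ℕ × ℕ × ℕ => b.1) eN
    (fun b => argN (ini b.1) (B0 b.1) b.2.1 b.2.2.1 b.2.2.2) (by fun_prop) heN harg
  have hO := hfn (fun b : α × ℕ × ℕ × ℕ => b.1) eO
    (fun b => argN (ini b.1) (B0 b.1) b.2.1 b.2.2.1 b.2.2.2) (by fun_prop) heO harg
  have hA := hfn (fun b : α × ℕ => b.1) eA (fun b => b.2) (by fun_prop) heA (by fun_prop)
  have hA' := hfn (fun b : α × ℕ × ℕ × ℕ => b.1) eA (fun b => b.2.1) (by fun_prop) heA
    (by fun_prop)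
  have hF : NF.IsLS (fun z => nf (eA z) (eN z) (eO z) (ini z) (B0 z)
      (tl (Nat.log 2 (x z)) (S z)) (LW (Nat.log 2 (x z)))
      (2 ^ (2 * ll (Nat.log 2 (x z)))) (CR (x z))) := by
    refine ⟨?_, ?_, ?_, ?_⟩
    · exact LS.sub hA (LS.pow_log hA)
    · exact LS.ifz (LS.mul hA' (LS.mul hN hO)) (LS.const 0)
        (LS.ifz (LS.sub hO (LS.const 1)) (LS.const 1)
          (LS.add (LS.const 2) (LS.mod hO (LS.const 2))))
    · exact hN
    · exact LS.div hO (LS.const 2)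
  refine ⟨hσ, LS.div hg hσ, hg, ?_, ?_, ?_, ?_, ?_, hC, ?_, hb1⟩
  · have hP' : LS (fun b : α × ℕ => 2 ^ sg (Nat.log 2 (x b.1)) (S b.1)) :=
      LS.comp (g := fun z => 2 ^ sg (Nat.log 2 (x z)) (S z)) hP (by fun_prop)
    exact LS.mod (ls_AA hF hB (π := fun b : α × ℕ => b.1) (by fun_prop) (X := fun b => b.2)
      (by fun_prop)) hP'
  · have hP' : LS (fun b : α × ℕ × ℕ => 2 ^ sg (Nat.log 2 (x b.1)) (S b.1)) :=
      LS.comp (g := fun z => 2 ^ sg (Nat.log 2 (x z)) (S z)) hP (by fun_prop)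
    exact LS.mod (ls_NN hF hB (π := fun b : α × ℕ × ℕ => b.1) (by fun_prop)
      (X := fun b => b.2.1) (v := fun b => b.2.2) (by fun_prop) (by fun_prop)) hP'
  · have hP' : LS (fun b : α × ℕ × ℕ => 2 ^ sg (Nat.log 2 (x b.1)) (S b.1)) :=
      LS.comp (g := fun z => 2 ^ sg (Nat.log 2 (x z)) (S z)) hP (by fun_prop)
    exact LS.mod (ls_WW hF hB (π := fun b : α × ℕ × ℕ => b.1) (by fun_prop)
      (X := fun b => b.2.1) (v := fun b => b.2.2) (by fun_prop) (by fun_prop)) hP'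
  · have h1 : LS (fun z => capN (tl (Nat.log 2 (x z)) (S z)) (st z)) := LS.capN hT hst
    have h2 : LS (fun z => capN (tl (Nat.log 2 (x z)) (S z)) (bo z)) := LS.capN hT hbo
    exact LS.mod (LS.ifz (LS.mul h1 h2) (LS.const 0) (LS.mkX hB (LS.const 2) (LS.const 0)
      (LS.const 0) (LS.add h1 (LS.mul hB h2)) (LS.const 0))) hP
  · have hP' : LS (fun b : α × ℕ => 2 ^ sg (Nat.log 2 (x b.1)) (S b.1)) :=
      LS.comp (g := fun z => 2 ^ sg (Nat.log 2 (x z)) (S z)) hP (by fun_prop)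
    have hB' : LS (fun b : α × ℕ => 2 ^ (tl (Nat.log 2 (x b.1)) (S b.1) + 1)) :=
      LS.comp (g := fun z => 2 ^ (tl (Nat.log 2 (x z)) (S z) + 1)) hB (by fun_prop)
    have ha : LS (fun b : α × ℕ => b.2) := by fun_prop
    have hx' : LS (fun b : α × ℕ => x b.1) := by fun_prop
    have hy' : LS (fun b : α × ℕ => y b.1) := by fun_prop
    have hl : LS (fun b : α × ℕ => lcN (x b.1) (y b.1) b.2) := by
      unfold lcN
      fun_prop
    exact LS.mod (LS.ifz (LS.lt01 ha hB') (LS.const 0) hl) hP'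
  · intro z
    refine ⟨Nat.succ_pos _, ?_, ?_, ?_, ?_, ?_, ?_⟩
    · show 0 < gR (Nat.log 2 (x z)) / (min (S z) (gR (Nat.log 2 (x z)) - 1) + 1)
      have h1 := gR_pos (Nat.log 2 (x z))
      have h2 : min (S z) (gR (Nat.log 2 (x z)) - 1) ≤ gR (Nat.log 2 (x z)) - 1 := min_le_right _ _
      exact Nat.div_pos (by omega) (by omega)
    · intro q
      exact Nat.mod_lt _ (by positivity)
    · intro q v
      exact Nat.mod_lt _ (by positivity)
    · intro q v
      exact Nat.mod_lt _ (by positivity)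
    · exact Nat.mod_lt _ (by positivity)
    · intro a
      exact Nat.mod_lt _ (by positivity)

end Pool.Agent.Helper20.APD
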