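import Pool.Agent.Helper20.APD.Num

set_option autoImplicit false

/-!
# The machine on numbers of the simulation with a table
-/

namespace Pool.Agent.Helper20.APD

open Pool.Agent.Helper65.LinSpace Pool.Agent.Helper78.Mpc Pool.Agent.Helper28.Ram

/-- The machine. -/
def machA (F : NF) (B σ b g q z : ℕ) (lc : ℕ → ℕ) : Mach where
  σ := σ
  b := b
  G := g
  A X := AA F B X % 2 ^ σ
  N X v := NN F B X v % 2 ^ σ
  W X v := WW F B X v % 2 ^ σ
  q0 := ifz (q * z) 0 (mkX B 2 0 0 (encC B (q, z)) 0) % 2 ^ σ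
  M0 a := ifz (lt01 a B) 0 (lc a) % 2 ^ σ

theorem mkX_lt {B k ph l s p : ℕ} (hk : k < 4) (hph : ph < 2) (hl : l < 9) (hs : s < B * B)
    (hp : p < B * B) : mkX B k ph l s p < 72 * (B * B * (B * B)) := by
  have h1 : B * B * (p + 1) ≤ B * B * (B * B) := Nat.mul_le_mul_left _ hp
  rw [Nat.mul_add, mul_one] at h1
  unfold mkX
  omega

theorem encS_lt {B : ℕ} (hB : 0 < B) {s : SS ℕ ℕ} (h : ValS B s) :
    encS B s < 72 * (B * B * (B * B)) := by
  have h0 : 0 < B * B * (B * B) := by positivity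
  rcases s with _ | _ | ⟨c, p⟩ | ⟨p, v⟩
  · show 0 < _
    omega
  · show 1 < _
    omega
  · exact mkX_lt (by norm_num) (by norm_num) (by norm_num) (encC_lt h.1) (encP_lt hB h.2)
  · exact mkX_lt (by norm_num) (by norm_num) (by norm_num)
      (lt_of_lt_of_le h.1.2 (Nat.le_mul_of_pos_left _ hB)) (encP_lt hB h.2)

theorem encE_lt {B : ℕ} (hB : 0 < B) {e : Entry ℕ ℕ} (h : ValE B e) :
    encE B e < 72 * (B * B * (B * B)) := by
  have h1 : B * B ≤ B * B * (B * B) := Nat.le_mul_of_pos_right _ (by positivity)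
  have h2 : B ≤ B * B := Nat.le_mul_of_pos_left _ hB
  rcases e with _ | p | p | v
  · show 0 < _
    omega
  · show 1 + 4 * encP B p < _
    have := encP_lt hB h
    omega
  · show 2 + 4 * encP B p < _
    have := encP_lt hB h
    omega
  · show 3 + 4 * v < _
    have := h.2
    omega

/-- The state after the first of two steps. -/
theorem first_step {F : NF} {B : ℕ} (hF : F.Ok B) (hB : 0 < B) {lc : ℕ → ℕ}
    {x : ℕ × (ℕ → ℕ)} {s : SS ℕ ℕ × (ℕ × ℕ → Entry ℕ ℕ)} (h : Rel B lc x s) :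
    AA F B x.1 < B ∧ (st1 F B x).1 < 72 * (B * B * (B * B)) ∧ (st1 F B x).2 = x.2 ∧
      (AA F B (st1 F B x).1 < B ∨ ∃ c, Val B c ∧ AA F B (st1 F B x).1 = encC B c) := by
  obtain ⟨X, M⟩ := x
  obtain ⟨s, T⟩ := s
  obtain ⟨h1, h2, h3, h4⟩ := h
  simp only at h1 h2 h3 h4
  have h0 : 0 < B * B * (B * B) := by positivity
  have hA0 : AA F B 0 = 0 := by
    unfold AA
    simp [phX, kX, eq01, ifz]
  have hA1 : AA F B 1 = 0 := by
    unfold AA
    simp [phX, kX, eq01, ifz]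
  rcases s with _ | _ | ⟨c, p⟩ | ⟨p, v⟩
  · rw [h1]
    show AA F B 0 < B ∧ (st1 F B (0, M)).1 < _ ∧ (st1 F B (0, M)).2 = M ∧
      (AA F B (st1 F B (0, M)).1 < B ∨ _)
    rw [st1_halt, hA0]
    exact ⟨hB, by show 0 < _; omega, rfl, Or.inl hB⟩
  · rw [h1]
    show AA F B 1 < B ∧ (st1 F B (1, M)).1 < _ ∧ (st1 F B (1, M)).2 = M ∧
      (AA F B (st1 F B (1, M)).1 < B ∨ _)
    rw [st1_acc, hA1]
    exact ⟨hB, by show 1 < _; omega, rfl, Or.inl hB⟩
  · obtain ⟨hc, hp⟩ := h2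
    have hs := encC_lt hc
    have hX : X = mkX B 2 0 0 (encC B c) (encP B p) := h1
    have e1 : eq01 2 2 = 1 := rfl
    refine ⟨?_, ?_, ?_, ?_⟩
    · show AA F B X < B
      rw [hX]
      unfold AA
      rw [phX_mkX (by norm_num) (by norm_num), ifz_zero, kX_mkX (by norm_num), e1,
        ifz_ne one_ne_zero]
      exact hF.had _
    · rw [hX, st1_ph0 F B (Or.inl rfl) hs]
      exact mkX_lt (by norm_num) (by norm_num) (Nat.mod_lt _ (by norm_num)) hs (encP_lt hB hp)
    · rw [hX, st1_ph0 F B (Or.inl rfl) hs]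
    · right
      refine ⟨c, hc, ?_⟩
      rw [hX, st1_ph0 F B (Or.inl rfl) hs]
      show AA F B (mkX B 2 1 _ _ _) = _
      unfold AA
      rw [phX_mkX (by norm_num) (by norm_num), ifz_ne one_ne_zero, kX_mkX (by norm_num), e1,
        ifz_ne one_ne_zero, sX_mkX (by norm_num) (by norm_num) (Nat.mod_lt _ (by norm_num)) hs]
  · obtain ⟨hv, hp⟩ := h2
    have hvB : v < B * B := lt_of_lt_of_le hv.2 (Nat.le_mul_of_pos_left _ hB)
    have hX : X = mkX B 3 0 0 v (encP B p) := h1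
    have e1 : eq01 3 2 = 0 := rfl
    refine ⟨?_, ?_, ?_, ?_⟩
    · show AA F B X < B
      rw [hX]
      unfold AA
      rw [phX_mkX (by norm_num) (by norm_num), ifz_zero, kX_mkX (by norm_num), e1, ifz_zero]
      exact hB
    · rw [hX, st1_ph0 F B (Or.inr rfl) hvB]
      exact mkX_lt (by norm_num) (by norm_num) (Nat.mod_lt _ (by norm_num)) hvB (encP_lt hB hp)
    · rw [hX, st1_ph0 F B (Or.inr rfl) hvB]
    · have e : AA F B (st1 F B (X, M)).1 = encP B p := by
        rw [hX, st1_ph0 F B (Or.inr rfl) hvB]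
        show AA F B (mkX B 3 1 _ _ _) = _
        unfold AA
        rw [phX_mkX (by norm_num) (by norm_num), ifz_ne one_ne_zero, kX_mkX (by norm_num), e1,
          ifz_zero, pX_mkX (by norm_num) (by norm_num) (Nat.mod_lt _ (by norm_num)) hvB]
      rcases p with _ | c
      · left
        rw [e]
        exact hB
      · right
        exact ⟨c, hp, e⟩

/-- One step of the machine. -/
def step1 (m : Mach) (x : ℕ × (ℕ → ℕ)) : ℕ × (ℕ → ℕ) :=
  (m.N x.1 (x.2 (m.A x.1)), Function.update x.2 (m.A x.1) (m.W x.1 (x.2 (m.A x.1))))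

theorem conf_succ' (m : Mach) (t : ℕ) : m.conf (t + 1) = step1 m (m.conf t) := rfl

theorem step1_eq {F : NF} {B σ b g q z : ℕ} {lc : ℕ → ℕ} {x : ℕ × (ℕ → ℕ)}
    (h1 : AA F B x.1 < 2 ^ σ) (h2 : (st1 F B x).1 < 2 ^ σ)
    (h3 : (st1 F B x).2 (AA F B x.1) < 2 ^ σ) :
    step1 (machA F B σ b g q z lc) x = st1 F B x := by
  have e1 : (machA F B σ b g q z lc).A x.1 = AA F B x.1 := Nat.mod_eq_of_lt h1
  unfold step1
  rw [e1]
  have e2 : (machA F B σ b g q z lc).N x.1 (x.2 (AA F B x.1)) = (st1 F B x).1 :=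
    Nat.mod_eq_of_lt h2
  have e3 : (machA F B σ b g q z lc).W x.1 (x.2 (AA F B x.1)) = WW F B x.1 (x.2 (AA F B x.1)) := by
    refine Nat.mod_eq_of_lt ?_
    have : (st1 F B x).2 (AA F B x.1) = WW F B x.1 (x.2 (AA F B x.1)) := by
      unfold st1
      exact Function.update_self _ _ _
    rw [← this]
    exact h3
  rw [e2, e3]
  rfl

section

variable {F : NF} {B σ b g q z : ℕ} {lc : ℕ → ℕ}

theorem two_steps (hF : F.Ok B) (hB : 0 < B) (hlc : ∀ i, lc i < 9)
    (hσ : 72 * (B * B * (B * B)) ≤ 2 ^ σ) {x : ℕ × (ℕ → ℕ)}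
    {s : SS ℕ ℕ × (ℕ × ℕ → Entry ℕ ℕ)} (h : Rel B lc x s) :
    step1 (machA F B σ b g q z lc) x = st1 F B x ∧
      step1 (machA F B σ b g q z lc) (st1 F B x) = st1 F B (st1 F B x) := by
  obtain ⟨f1, f2, f3, f4⟩ := first_step hF hB h
  have hr := rel_step hF hB hlc h
  have hB1 : B ≤ B * B := Nat.le_mul_of_pos_left _ hB
  have hB2 : B * B ≤ B * B * (B * B) := Nat.le_mul_of_pos_right _ (by positivity)
  have hlt : ∀ i < B, x.2 i < 2 ^ σ := by
    intro i hi
    rw [h.h4 i hi]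
    have := hlc i
    omega
  constructor
  · refine step1_eq (by omega) (by omega) ?_
    rw [f3]
    exact hlt _ f1
  · refine step1_eq ?_ ?_ ?_
    · rcases f4 with f4 | ⟨c, hc, f4⟩
      · omega
      · have := encC_lt hc
        omega
    · rw [hr.h1]
      have := encS_lt hB hr.h2
      omega
    · rcases f4 with f4 | ⟨c, hc, f4⟩
      · rw [hr.h4 _ f4]
        have := hlc (AA F B (st1 F B x).1)
        omega
      · rw [f4, (hr.h3 c hc).1]
        have := encE_lt hB (hr.h3 c hc).2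
        omega

theorem rel_conf (hF : F.Ok B) (hB : 0 < B) (hlc : ∀ i, lc i < 9)
    (hσ : 72 * (B * B * (B * B)) ≤ 2 ^ σ) (hq : 0 < q ∧ q < B) (hz : 0 < z ∧ z < B) (k : ℕ) :
    Rel B lc ((machA F B σ b g q z lc).conf (2 * k))
      (srun (F.pd lc) k (.call (q, z) none, fun _ => .none)) := by
  induction k with
  | zero =>
    have hc : Val B (q, z) := ⟨hq, hz⟩
    have hqz : q * z ≠ 0 := (Nat.mul_pos hq.1 hz.1).ne'
    refine ⟨?_, ⟨hc, trivial⟩, ?_, ?_⟩
    · show ifz (q * z) 0 (mkX B 2 0 0 (encC B (q, z)) 0) % 2 ^ σ = mkX B 2 0 0 (encC B (q, z)) 0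
      rw [ifz_ne hqz]
      refine Nat.mod_eq_of_lt (lt_of_lt_of_le (mkX_lt (by norm_num) (by norm_num) (by norm_num)
        (encC_lt hc) (by positivity)) hσ)
    · intro c hc'
      refine ⟨?_, trivial⟩
      show ifz (lt01 (encC B c) B) 0 _ % 2 ^ σ = 0
      have := encC_ge hc'
      rw [lt01, if_neg (by omega), ifz_zero, Nat.zero_mod]
    · intro i hi
      show ifz (lt01 i B) 0 (lc i) % 2 ^ σ = lc i
      rw [lt01, if_pos hi, ifz_ne one_ne_zero]
      refine Nat.mod_eq_of_lt ?_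
      have h1 := hlc i
      have h2 : 0 < B * B * (B * B) := by positivity
      omega
  | succ k ih =>
    have e : 2 * (k + 1) = 2 * k + 1 + 1 := by ring
    obtain ⟨t1, t2⟩ := two_steps (b := b) (g := g) (q := q) (z := z) hF hB hlc hσ ih
    rw [e, conf_succ', conf_succ', t1, t2, srun_add, srun_one]
    exact rel_step hF hB hlc ih

/-- An accepting state is kept. -/
theorem acc_keep (hσ : 1 < 2 ^ σ) {t : ℕ} (h : ((machA F B σ b g q z lc).conf t).1 = 1) :
    ∀ T, t ≤ T → ((machA F B σ b g q z lc).conf T).1 = 1 := by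
  intro T hT
  induction T, hT using Nat.le_induction with
  | base => exact h
  | succ T _ ih =>
    rw [conf_succ']
    show NN F B ((machA F B σ b g q z lc).conf T).1 _ % 2 ^ σ = 1
    rw [ih]
    unfold NN
    rw [kX_one, show (1 : ℕ) / 2 = 0 from rfl, ifz_zero]
    exact Nat.mod_eq_of_lt hσ

theorem encS_one {B : ℕ} {s : SS ℕ ℕ} (h : encS B s % 4 = 1) : s = .acc := by
  rcases s with _ | _ | ⟨c, p⟩ | ⟨p, v⟩
  · exact absurd h (by show ¬ (0 % 4 = 1); norm_num)
  · rfl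
  · have : kX (mkX B 2 0 0 (encC B c) (encP B p)) = 2 := kX_mkX (by norm_num)
    exact absurd (h.symm.trans this) (by norm_num)
  · have : kX (mkX B 3 0 0 v (encP B p)) = 3 := kX_mkX (by norm_num)
    exact absurd (h.symm.trans this) (by norm_num)

/-- Soundness. -/
theorem mach_sound (hF : F.Ok B) (hB : 0 < B) (hlc : ∀ i, lc i < 9)
    (hσ : 72 * (B * B * (B * B)) ≤ 2 ^ σ) (hq : 0 < q ∧ q < B) (hz : 0 < z ∧ z < B) (T : ℕ)
    (h : ((machA F B σ b g q z lc).conf T).1 % 4 = 1) :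
    ∃ t, (F.pd lc).acc ((F.pd lc).run t (q, [z])).1 := by
  have key : ∀ k, ((machA F B σ b g q z lc).conf (2 * k)).1 % 4 = 1 →
      ∃ t, (F.pd lc).acc ((F.pd lc).run t (q, [z])).1 := by
    intro k hk
    have hr := rel_conf (b := b) (g := g) hF hB hlc hσ hq hz k
    rw [hr.h1] at hk
    have hs := encS_one hk
    refine sound (F.pd lc) q z k (srun (F.pd lc) k (.call (q, z) none, fun _ => .none)).2 ?_
    exact Prod.ext hs rfl
  rcases Nat.even_or_odd' T with ⟨k, hk | hk⟩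
  · rw [hk] at h
    exact key k h
  · refine key k ?_
    have hr := rel_conf (b := b) (g := g) hF hB hlc hσ hq hz k
    rw [hk, conf_succ', (two_steps hF hB hlc hσ hr).1] at h
    set x := (machA F B σ b g q z lc).conf (2 * k) with hx
    obtain ⟨X, M⟩ := x
    obtain ⟨h1, h2, h3, h4⟩ := hr
    simp only at h1 h2 h3 h4
    rw [h1] at h ⊢
    generalize (srun (F.pd lc) k (.call (q, z) none, fun _ => .none)).1 = s at *
    rcases s with _ | _ | ⟨c, p⟩ | ⟨p, v⟩
    · rw [show encS B SS.halt = 0 from rfl, st1_halt] at h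
      exact absurd h (by norm_num)
    · rfl
    · rw [show encS B (.call c p) = mkX B 2 0 0 (encC B c) (encP B p) from rfl,
        st1_ph0 F B (Or.inl rfl) (encC_lt h2.1)] at h
      have : kX (mkX B 2 1 (M (ifz (eq01 2 2) 0 (F.ad (encC B c % B))) % 9) (encC B c)
        (encP B p)) = 2 := kX_mkX (by norm_num)
      exact absurd (h.symm.trans this) (by norm_num)
    · rw [show encS B (.ret p v) = mkX B 3 0 0 v (encP B p) from rfl,
        st1_ph0 F B (Or.inr rfl) (lt_of_lt_of_le h2.1.2 (Nat.le_mul_of_pos_left _ hB))] at h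
      have : kX (mkX B 3 1 (M (ifz (eq01 3 2) 0 (F.ad (v % B))) % 9) v (encP B p)) = 3 :=
        kX_mkX (by norm_num)
      exact absurd (h.symm.trans this) (by norm_num)

/-- Completeness. -/
theorem mach_complete (hF : F.Ok B) (hB : 0 < B) (hlc : ∀ i, lc i < 9)
    (hσ : 72 * (B * B * (B * B)) ≤ 2 ^ σ) (hq : 0 < q ∧ q < B) (hz : 0 < z ∧ z < B)
    (V : Finset (ℕ × ℕ)) (t : ℕ) (h1 : ∀ τ < t, ¬ (F.pd lc).acc ((F.pd lc).run τ (q, [z])).1)
    (h2 : ∀ τ < t, ∀ z' st', ((F.pd lc).run τ (q, [z])).2 = z' :: st' →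
      (((F.pd lc).run τ (q, [z])).1, z') ∈ V)
    (h3 : (F.pd lc).acc ((F.pd lc).run t (q, [z])).1) (T : ℕ) (hT : 2 * (4 * V.card + 1) ≤ T) :
    ((machA F B σ b g q z lc).conf T).1 % 4 = 1 := by
  obtain ⟨k, M, hk, hkb⟩ := complete (F.pd lc) V q z t h1 h2 h3
  have hr := (rel_conf (b := b) (g := g) hF hB hlc hσ hq hz k).h1
  rw [hk] at hr
  have h0 : 0 < B * B * (B * B) := by positivity
  rw [acc_keep (by omega) hr T (by omega)]

end

end Pool.Agent.Helper20.APD
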