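import Pool.Agent.Helper20.APD.Fam
import Pool.Agent.Helper28.Gen.Main

set_option autoImplicit false

/-!
# Auxiliary pushdown machines are weaker than linear space
-/

namespace Pool.Agent.Helper20.APD

open Pool.Agent.Helper65.LinSpace Pool.Agent.Helper78.Mpc Pool.Agent.Helper28.Ram
  Pool.Agent.Helper11.Ram Finset Filter

/-- The machine with the code `e`. -/
def machE (e x y S : ℕ) : Mach :=
  machP (Nat.unpair e).1 (Nat.unpair (Nat.unpair e).2).1
    (Nat.unpair (Nat.unpair (Nat.unpair e).2).2).1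
    (Nat.unpair (Nat.unpair (Nat.unpair (Nat.unpair e).2).2).2).1
    (Nat.unpair (Nat.unpair (Nat.unpair (Nat.unpair (Nat.unpair e).2).2).2).2).1
    (Nat.unpair (Nat.unpair (Nat.unpair (Nat.unpair (Nat.unpair (Nat.unpair e).2).2).2).2).2).1
    (Nat.unpair (Nat.unpair (Nat.unpair (Nat.unpair (Nat.unpair (Nat.unpair e).2).2).2).2).2).2
    x y S

/-- Acceptance in the simulation. -/
noncomputable def accP (e x y S : ℕ) : ℕ :=
  lt01 9 S * eq01 ((machE e x y S).sim (pR (Nat.log 2 x)) (JR (Nat.log 2 x))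
    (gR (Nat.log 2 x)) % 4) 1

theorem LS_accP : LS (fun z : ℕ × ℕ × ℕ × ℕ => accP z.1 z.2.1 z.2.2.1 z.2.2.2) := by
  have hM : LSM (fun z : ℕ × ℕ × ℕ × ℕ => machE z.1 z.2.1 z.2.2.1 z.2.2.2)
      (fun z => CR z.2.1) := by
    unfold machE
    exact LSM_machP (by fun_prop) (by fun_prop) (by fun_prop) (by fun_prop) (by fun_prop)
      (by fun_prop) (by fun_prop) (by fun_prop) (by fun_prop) (by fun_prop)
  have h := LS.simG parts (x := fun z : ℕ × ℕ × ℕ × ℕ => z.2.1) (S := fun z => z.2.2.2)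
    (by fun_prop) hM (fun _ => rfl) (fun _ => rfl) (fun _ => rfl)
  unfold accP
  exact LS.mul (by fun_prop) (LS.eq01 (LS.mod h (LS.const 4)) (LS.const 1))

/-- The state `0` is kept. -/
theorem zero_keep {F : NF} {B σ b g q z : ℕ} {lc : ℕ → ℕ} (h : q * z = 0) (t : ℕ) :
    ((machA F B σ b g q z lc).conf t).1 = 0 := by
  induction t with
  | zero =>
    show ifz (q * z) 0 _ % 2 ^ σ = 0
    rw [h, ifz_zero, Nat.zero_mod]
  | succ t ih =>
    rw [conf_succ']
    show NN F B ((machA F B σ b g q z lc).conf t).1 _ % 2 ^ σ = 0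
    rw [ih]
    unfold NN
    rw [show kX 0 = 0 from rfl, show (0 : ℕ) / 2 = 0 from rfl, ifz_zero, Nat.zero_mod]

theorem surf_finite (A : PDM) (w y : List Bool) (t : ℕ) : (A.surf w y t).Finite := by
  refine ((Set.finite_Iio t).image
    (fun τ => ((A.conf w y τ).1, (A.conf w y τ).2.headD []))).subset ?_
  rintro ⟨q, z⟩ ⟨τ, hτ, st, h⟩
  refine ⟨τ, hτ, ?_⟩
  show ((A.conf w y τ).1, (A.conf w y τ).2.headD []) = (q, z)
  rw [h]
  rfl

/-- The numbers of the surface configurations. -/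
theorem exists_V (A : PDM) (w y : List Bool) (t : ℕ) : ∃ V : Finset (ℕ × ℕ),
    V.card ≤ (A.surf w y t).ncard ∧ ∀ x ∈ A.surf w y t, (num x.1, num x.2) ∈ V := by
  classical
  have hfin := surf_finite A w y t
  refine ⟨hfin.toFinset.image (fun x => (num x.1, num x.2)), ?_, fun x hx => ?_⟩
  · refine Finset.card_image_le.trans ?_
    rw [Set.ncard_eq_toFinset_card _ hfin]
  · exact Finset.mem_image.2 ⟨x, hfin.mem_toFinset.2 hx, rfl⟩

theorem exists_len (f : Option Bool → Option Bool → List Bool) :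
    ∃ R : ℕ, ∀ a b, (f a b).length ≤ R := by
  refine ⟨∑ a : Option Bool, ∑ b : Option Bool, (f a b).length, fun a b => ?_⟩
  exact (Finset.single_le_sum (f := fun b => (f a b).length) (fun _ _ => Nat.zero_le _)
    (Finset.mem_univ b)).trans (Finset.single_le_sum
      (f := fun a => ∑ b : Option Bool, (f a b).length) (fun _ _ => Nat.zero_le _)
      (Finset.mem_univ a))

/-- Every machine has a code. -/
theorem exists_accP (A : PDM) : ∃ e n₀ : ℕ, ∀ w y : List Bool, n₀ ≤ w.length →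
    (∀ S < gR (Nat.log 2 (num w)), accP e (num w) (num y) S ≠ 0 → ∃ t, A.AcceptsAt w y t) ∧
    ∀ t s, 4 * s + 14 < gR w.length →
      8 * (A.surf w y t).ncard + 2 ≤
        gR w.length * (gR w.length * (gR w.length / (4 * s + 14 + 1))) →
      A.Fits w y t s → A.AcceptsAt w y t →
      ∃ S < gR (Nat.log 2 (num w)), accP e (num w) (num y) S ≠ 0 := by
  obtain ⟨eA, cA, hA⟩ := fnN_spec A.addr_lin
  obtain ⟨eN, cN, hN⟩ := fnN_spec A.next_lin
  obtain ⟨eO, cO, hO⟩ := fnN_spec A.act_lin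
  obtain ⟨B0, ini, hini⟩ := exists_ini A.read
  obtain ⟨R, hR⟩ := exists_len A.read
  obtain ⟨n₀, hn₀⟩ := eventually_atTop.1 (parts.PAR4 ((cA + cN + cO + 1) * (R + 1)))
  refine ⟨Nat.pair eA (Nat.pair eN (Nat.pair eO (Nat.pair ini (Nat.pair B0
    (Nat.pair (num A.start) (num A.bottom)))))), n₀, fun w y hw => ?_⟩
  have hlog : Nat.log 2 (num w) = w.length := Pool.Agent.Helper65.LinSpace.log_num w
  set e := Nat.pair eA (Nat.pair eN (Nat.pair eO (Nat.pair ini (Nat.pair B0
    (Nat.pair (num A.start) (num A.bottom)))))) with he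
  rw [hlog]
  -- the machine
  have hmach : ∀ S, machE e (num w) (num y) S = machP eA eN eO ini B0 (num A.start)
      (num A.bottom) (num w) (num y) S := by
    intro S
    unfold machE
    rw [he]
    simp only [Nat.unpair_pair]
  have hsim : ∀ S < gR w.length, 10 ≤ S →
      accP e (num w) (num y) S = eq01 (((machA
        (nf eA eN eO ini B0 ((S - 10) / 4) (LW w.length) (2 ^ (2 * ll w.length)) (CR (num w)))
        (2 ^ ((S - 10) / 4 + 1)) (S + 1) (gR w.length / (S + 1)) (gR w.length)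
        (capN ((S - 10) / 4) (num A.start)) (capN ((S - 10) / 4) (num A.bottom))
        (lcN (num w) (num y))).conf
        (gR w.length * (gR w.length * (gR w.length / (S + 1))))).1 % 4) 1 := by
    intro S hS hS10
    have hmin : min S (gR w.length - 1) = S := min_eq_left (by omega)
    have hM := LSM_machP (α := ℕ) (eA := fun _ => eA) (eN := fun _ => eN) (eO := fun _ => eO)
      (ini := fun _ => ini) (B0 := fun _ => B0) (st := fun _ => num A.start)
      (bo := fun _ => num A.bottom) (x := fun _ => num w) (y := fun _ => num y)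
      (S := fun _ => S) (LS.const _) (LS.const _) (LS.const _) (LS.const _) (LS.const _)
      (LS.const _) (LS.const _) (LS.const _) (LS.const _) (LS.const _)
    have h := simG_eq parts (hM.ok 0) (S := S) (n := Nat.log 2 (num w)) rfl rfl rfl
    have hsg : sg w.length S = S + 1 := by
      unfold sg
      rw [hmin]
    have htl : tl w.length S = (S - 10) / 4 := by
      unfold tl
      rw [hsg]
      omega
    have h1 : lt01 9 S = 1 := by rw [lt01, if_pos (by omega)]
    unfold accP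
    rw [h1, one_mul, hmach, h]
    show eq01 (((machP eA eN eO ini B0 (num A.start) (num A.bottom) (num w) (num y) S).conf
      (gR (Nat.log 2 (num w)) * (gR (Nat.log 2 (num w)) * (gR (Nat.log 2 (num w)) /
        sg (Nat.log 2 (num w)) S)))).1 % 4) 1 = _
    unfold machP
    rw [hlog, hsg, htl]
  have hcond : ∀ S < gR w.length, 10 ≤ S →
      72 * (2 ^ ((S - 10) / 4 + 1) * 2 ^ ((S - 10) / 4 + 1) *
        (2 ^ ((S - 10) / 4 + 1) * 2 ^ ((S - 10) / 4 + 1))) ≤ 2 ^ (S + 1) := by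
    intro S hS hS10
    set T := (S - 10) / 4 with hT
    have h1 : 2 ^ (T + 1) * 2 ^ (T + 1) * (2 ^ (T + 1) * 2 ^ (T + 1)) = 2 ^ (4 * T + 4) := by
      rw [← pow_add, ← pow_add]
      congr 1
      ring
    rw [h1]
    calc 72 * 2 ^ (4 * T + 4) ≤ 2 ^ 7 * 2 ^ (4 * T + 4) := Nat.mul_le_mul_right _ (by norm_num)
      _ = 2 ^ (4 * T + 11) := by
        rw [← pow_add]
        congr 1
        ring
      _ ≤ 2 ^ (S + 1) := Nat.pow_le_pow_right (by norm_num) (by omega)
  have hgood : ∀ S < gR w.length, 10 ≤ S → ∀ (f : List Bool → List Bool) (e' c' : ℕ),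
      c' ≤ cA + cN + cO →
      (∀ (w : List Bool) (S Λ β B : ℕ), c' * (S + w.length + 2) ≤ Λ →
        c' + Λ + S + w.length + 1 ≤ β → 2 ^ (S + 1) ≤ B →
        fnN e' S Λ β B (num w) = if (f w).length ≤ S then num (f w) else 0) →
      Good f e' ((S - 10) / 4) (LW w.length) (2 ^ (2 * ll w.length)) (CR (num w))
        (4 * ((S - 10) / 4) + 2 + R) := by
    intro S hS hS10 f e' c' hc' hf u hu
    obtain ⟨h1, h2, h3⟩ := hn₀ w.length hw S hS
    have h4 : c' * (R + 1) ≤ (cA + cN + cO + 1) * (R + 1) :=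
      Nat.mul_le_mul_right _ (by omega)
    refine hf u _ _ _ _ ?_ ?_ ?_
    · refine le_trans ?_ h1
      calc c' * ((S - 10) / 4 + u.length + 2) ≤ c' * ((R + 1) * (4 * S + 4)) := by
            refine Nat.mul_le_mul_left _ ?_
            have : R ≤ R * (4 * S + 4) := Nat.le_mul_of_pos_right _ (by omega)
            rw [add_mul, one_mul]
            omega
        _ = c' * (R + 1) * (4 * S + 4) := by ring
        _ ≤ _ := Nat.mul_le_mul_right _ h4
    · have h5 : c' + R ≤ (cA + cN + cO + 1) * (R + 1) := by nlinarith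
      omega
    · refine (Nat.pow_le_pow_right (by norm_num) ?_).trans (h3 (num w) hlog)
      omega
  have hB0 : ∀ T : ℕ, 0 < 2 ^ (T + 1) := fun T => by positivity
  constructor
  · intro S hS hne
    have hS10 : 10 ≤ S := by
      by_contra h
      apply hne
      unfold accP
      rw [lt01, if_neg (by omega), zero_mul]
    rw [hsim S hS hS10] at hne
    have hacc : ((machA
        (nf eA eN eO ini B0 ((S - 10) / 4) (LW w.length) (2 ^ (2 * ll w.length)) (CR (num w)))
        (2 ^ ((S - 10) / 4 + 1)) (S + 1) (gR w.length / (S + 1)) (gR w.length)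
        (capN ((S - 10) / 4) (num A.start)) (capN ((S - 10) / 4) (num A.bottom))
        (lcN (num w) (num y))).conf
        (gR w.length * (gR w.length * (gR w.length / (S + 1))))).1 % 4 = 1 := by
      by_contra h
      apply hne
      rw [eq01, if_neg h]
    have hne0 : capN ((S - 10) / 4) (num A.start) * capN ((S - 10) / 4) (num A.bottom) ≠ 0 := by
      intro h0
      rw [zero_keep h0] at hacc
      omega
    have hs := left_ne_zero_of_mul hne0
    have hb := right_ne_zero_of_mul hne0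
    have hs' := capN_num_le hs
    have hb' := capN_num_le hb
    rw [capN_num hs', capN_num hb'] at hacc
    obtain ⟨t, ht⟩ := mach_sound (nf_ok _ _ _ _ _ _ _ _ _) (hB0 _) (lcN_lt _ _)
      (hcond S hS hS10) ⟨Pool.Agent.Helper65.LinSpace.num_pos _, by
        have := capN_lt ((S - 10) / 4) (num A.start)
        rwa [capN_num hs'] at this⟩ ⟨Pool.Agent.Helper65.LinSpace.num_pos _, by
        have := capN_lt ((S - 10) / 4) (num A.bottom)
        rwa [capN_num hb'] at this⟩ _ hacc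
    obtain ⟨t', h1, h2, h3⟩ := run_sound (w := w) (y := y) (hgood S hS hS10 A.addr eA cA (by omega) hA)
      (hgood S hS hS10 A.next eN cN (by omega) hN) (hgood S hS hS10 A.act eO cO (by omega) hO)
      hini hR hs' hb' t
    refine ⟨t', ?_⟩
    rw [h3] at ht
    exact (accN_num _).1 ht
  · intro t s hs hN' hfit hacc
    have hS10 : 10 ≤ 4 * s + 14 := by omega
    refine ⟨4 * s + 14, hs, ?_⟩
    rw [hsim _ hs hS10]
    have hT : (4 * s + 14 - 10) / 4 = s + 1 := by omega
    have hcond' := hcond _ hs hS10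
    have hgood' := hgood _ hs hS10
    rw [hT] at hcond' hgood' ⊢
    have f0 := hfit 0 (Nat.zero_le _)
    have hs' : A.start.length ≤ s + 1 := by
      have : A.start.length ≤ s := f0.1
      omega
    have hb' : A.bottom.length ≤ s + 1 := by
      have : A.bottom.length ≤ s := f0.2.2 A.bottom (by
        show A.bottom ∈ [A.bottom]
        simp)
      omega
    rw [capN_num hs', capN_num hb']
    classical
    have hex : ∃ t, A.AcceptsAt w y t := ⟨t, hacc⟩
    have hle : Nat.find hex ≤ t := Nat.find_min' hex hacc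
    obtain ⟨V, hV, hV2⟩ := exists_V A w y t
    have hrun := run_complete (w := w) (y := y) (hgood' A.addr eA cA (by omega) hA)
      (hgood' A.next eN cN (by omega) hN) (hgood' A.act eO cO (by omega) hO) hini hR hfit le_rfl
    have := mach_complete (b := gR w.length / (4 * s + 14 + 1)) (g := gR w.length)
      (nf_ok eA eN eO ini B0 (s + 1) (LW w.length) (2 ^ (2 * ll w.length)) (CR (num w)))
      (hB0 _) (lcN_lt (num w) (num y)) hcond' (q := num A.start) (z := num A.bottom)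
      ⟨Pool.Agent.Helper65.LinSpace.num_pos _, by
        have := capN_lt (s + 1) (num A.start)
        rwa [capN_num hs'] at this⟩ ⟨Pool.Agent.Helper65.LinSpace.num_pos _, by
        have := capN_lt (s + 1) (num A.bottom)
        rwa [capN_num hb'] at this⟩ V (Nat.find hex) ?_ ?_ ?_
      (gR w.length * (gR w.length * (gR w.length / (4 * s + 14 + 1)))) (by omega)
    · rw [this]
      exact one_ne_zero
    · intro τ hτ h
      rw [hrun τ (by omega)] at h
      exact Nat.find_min hex hτ ((accN_num _).1 h)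
    · intro τ hτ z' st' h
      rw [hrun τ (by omega)] at h ⊢
      rcases hst : (A.conf w y τ).2 with _ | ⟨z, st⟩
      · rw [hst] at h
        exact absurd h (by simp)
      · rw [hst] at h
        have hz : num z = z' := by
          simp only [List.map_cons, List.cons.injEq] at h
          exact h.1
        rw [← hz]
        exact hV2 ((A.conf w y τ).1, z) ⟨τ, by omega, st, Prod.ext rfl hst⟩
    · rw [hrun _ hle]
      exact (accN_num _).2 (Nat.find_spec hex)

/-- The bounds. -/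
theorem par_apd (C : ℝ) : ∀ᶠ n : ℕ in atTop, ∀ N s : ℕ, 1 ≤ s →
    (N : ℝ) * s ≤ C * ((n : ℝ) + 1) ^ ((3 : ℝ) / 2) / ((Nat.log 2 n : ℝ) + 1) ^ 2 →
    (s : ℝ) ≤ C * ((n : ℝ) + 1) ^ ((1 : ℝ) / 2) / ((Nat.log 2 n : ℝ) + 1) →
    4 * s + 14 < gR n ∧ 8 * N + 2 ≤ gR n * (gR n * (gR n / (4 * s + 14 + 1))) := by
  filter_upwards [par3 (180 * |C|)] with n hn N s hs h1 h2
  have hs1 : (1 : ℝ) ≤ s := by exact_mod_cast hs
  have hC : C ≤ |C| := le_abs_self C
  have hC0 : 0 ≤ |C| := abs_nonneg C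
  set l : ℝ := (Nat.log 2 n : ℝ) + 1 with hl
  have hl1 : 1 ≤ l := by
    rw [hl]
    have : (0 : ℝ) ≤ (Nat.log 2 n : ℝ) := Nat.cast_nonneg _
    linarith
  have hn1 : (1 : ℝ) ≤ (n : ℝ) + 1 := by
    have : (0 : ℝ) ≤ (n : ℝ) := Nat.cast_nonneg _
    linarith
  have hln : l ≤ (n : ℝ) + 1 := by
    have h3 : Nat.log 2 n ≤ n := Nat.log_le_self 2 n
    have h4 : (Nat.log 2 n : ℝ) ≤ n := by exact_mod_cast h3
    rw [hl]
    linarith
  set X : ℝ := ((n : ℝ) + 1) ^ ((3 : ℝ) / 2) / l ^ 2 with hX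
  set Y : ℝ := ((n : ℝ) + 1) ^ ((1 : ℝ) / 2) / l with hY
  have hY0 : 0 ≤ Y := by positivity
  have hX0 : 0 ≤ X := by positivity
  have hYX : Y ≤ X := by
    have h5 : ((n : ℝ) + 1) ^ ((3 : ℝ) / 2) = ((n : ℝ) + 1) * ((n : ℝ) + 1) ^ ((1 : ℝ) / 2) := by
      rw [show (3 : ℝ) / 2 = 1 + 1 / 2 by norm_num, Real.rpow_add (by linarith), Real.rpow_one]
    have h6 : X = Y * (((n : ℝ) + 1) / l) := by
      rw [hX, hY, h5]
      field_simp
    rw [h6]
    have h7 : 1 ≤ ((n : ℝ) + 1) / l := by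
      rw [le_div_iff₀ (by linarith)]
      linarith
    exact le_mul_of_one_le_right hY0 h7
  have h1' : (N : ℝ) * s ≤ |C| * X := by
    refine h1.trans ?_
    rw [mul_div_assoc]
    exact mul_le_mul_of_nonneg_right hC hX0
  have h2' : (s : ℝ) ≤ |C| * Y := by
    refine h2.trans ?_
    rw [mul_div_assoc]
    exact mul_le_mul_of_nonneg_right hC hY0
  have hCY : |C| * Y ≤ |C| * X := mul_le_mul_of_nonneg_left hYX hC0
  refine hn (8 * N + 2) (4 * s + 14) (by omega) ?_ ?_
  · rw [mul_div_assoc, ← hX]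
    push_cast
    have h8 : (8 * (N : ℝ) + 2) * (4 * s + 14) ≤ (8 * (N : ℝ) + 2) * (18 * s) := by
      refine mul_le_mul_of_nonneg_left (by linarith) (by positivity)
    have h9 : (8 * (N : ℝ) + 2) * (18 * s) = 144 * (N * s) + 36 * s := by ring
    nlinarith
  · rw [mul_div_assoc, ← hY]
    push_cast
    nlinarith

/-- An accepting state is not the empty word. -/
theorem one_le_of_accepts {A : PDM} {w y : List Bool} {t s : ℕ} (hf : A.Fits w y t s)
    (ha : A.AcceptsAt w y t) : 1 ≤ s := by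
  have h1 := (hf t le_rfl).1
  unfold PDM.AcceptsAt at ha
  rcases hq : (A.conf w y t).1 with _ | ⟨b, q⟩
  · rw [hq] at ha
    simp at ha
  · rw [hq] at h1
    simp only [List.length_cons] at h1
    omega

/-- The bounds on a run. -/
def Bd (C : ℝ) (n N s : ℕ) : Prop :=
  (N : ℝ) * s ≤ C * ((n : ℝ) + 1) ^ ((3 : ℝ) / 2) / ((Nat.log 2 n : ℝ) + 1) ^ 2 ∧
    (s : ℝ) ≤ C * ((n : ℝ) + 1) ^ ((1 : ℝ) / 2) / ((Nat.log 2 n : ℝ) + 1)

/-- Every machine has a code, with the bounds of the theorem. -/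
theorem exists_accP' (A : PDM) (C : ℝ) : ∃ e n₀ : ℕ, ∀ w y : List Bool, n₀ ≤ w.length →
    (∀ S < gR (Nat.log 2 (num w)), accP e (num w) (num y) S ≠ 0 → ∃ t, A.AcceptsAt w y t) ∧
    ((∃ t s, Bd C w.length (A.surf w y t).ncard s ∧ A.Fits w y t s ∧ A.AcceptsAt w y t) →
      ∃ S < gR (Nat.log 2 (num w)), accP e (num w) (num y) S ≠ 0) := by
  obtain ⟨e, n₀, he⟩ := exists_accP A
  obtain ⟨n₁, hn₁⟩ := eventually_atTop.1 (par_apd C)
  refine ⟨e, max n₀ n₁, fun w y hw => ?_⟩
  obtain ⟨h1, h2⟩ := he w y ((le_max_left _ _).trans hw)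
  refine ⟨h1, ?_⟩
  rintro ⟨t, s, ⟨hb1, hb2⟩, hfit, hacc⟩
  obtain ⟨h3, h4⟩ := hn₁ w.length ((le_max_right _ _).trans hw) _ s
    (one_le_of_accepts hfit hacc) hb1 hb2
  exact h2 t s h3 h4 hfit hacc

/-- **Average-case hardness for auxiliary pushdown machines.** -/
theorem apd_main (c : ℕ) : ∃ (L : Set (List Bool)) (s : ℕ → List Bool), DLINSPACE L ∧
    (∀ n, (s n).length = n) ∧
    (∀ w, w ∈ L ↔ Odd ((List.zipWith and (s w.length) w).count true)) ∧
    ∀ (A : PDM) (C : ℝ), ∃ c' : ℝ, ∀ (n : ℕ) (α : List Bool),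
      ∀ M, M = L ∨ M = Lᶜ →
        ({w : List Bool | w.length = n ∧
          (∀ v t, A.AcceptsAt w (α ++ v) t → w ∈ M) ∧
          (w ∈ M → ∃ (v : List Bool) (t s : ℕ), v.length ≤ c * n ∧
            ((A.surf w (α ++ v) t).ncard : ℝ) * s ≤
              C * ((n : ℝ) + 1) ^ ((3 : ℝ) / 2) / ((Nat.log 2 n : ℝ) + 1) ^ 2 ∧
            (s : ℝ) ≤ C * ((n : ℝ) + 1) ^ ((1 : ℝ) / 2) / ((Nat.log 2 n : ℝ) + 1) ∧
            A.Fits w (α ++ v) t s ∧ A.AcceptsAt w (α ++ v) t)}.ncard : ℝ) ≤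
        2 ^ n / 2 + c' * ((min α.length (n - α.length) : ℕ) + 1) *
          2 ^ (((n : ℝ) + α.length) / 2) := by
  obtain ⟨L, s, h1, h2, h3, h4⟩ := Pool.Agent.Helper28.Gen.avg_main accP
    (fun x => gR (Nat.log 2 x)) LS_accP (Pool.Agent.Helper59.Ram.LS_gR (LS.log2 LS.id)) c
  refine ⟨L, s, h1, h2, h3, fun A C => ?_⟩
  obtain ⟨e, n₀, he⟩ := exists_accP' A C
  obtain ⟨c', hc'⟩ := h4 (fun w y => ∃ t, A.AcceptsAt w y t)
    (fun w y => ∃ t s, Bd C w.length (A.surf w y t).ncard s ∧ A.Fits w y t s ∧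
      A.AcceptsAt w y t) ⟨e, n₀, he⟩
  refine ⟨c', fun n α M hM => le_trans (Nat.cast_le.2 (Set.ncard_le_ncard ?_ ?_)) (hc' n α M hM)⟩
  · rintro w ⟨hw, h5, h6⟩
    refine ⟨hw, ?_, fun h => ?_⟩
    · rintro v ⟨t, ht⟩
      exact h5 v t ht
    · obtain ⟨v, t, s, hv, h7, h8, h9, h10⟩ := h6 h
      refine ⟨v, hv, t, s, ⟨?_, ?_⟩, h9, h10⟩
      · rw [hw]
        exact h7
      · rw [hw]
        exact h8
  · exact (List.finite_length_eq Bool n).subset fun w hw => hw.1

/-- Languages accepted by auxiliary pushdown machines with few surface configurations are in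
linear space. -/
theorem apd_lin (c : ℕ) (A : PDM) (L : Set (List Bool)) (C : ℝ)
    (hA : A.Accepts L (fun n => (c : ℝ) * n)
      (fun n => C * ((n : ℝ) + 1) ^ ((3 : ℝ) / 2) / ((Nat.log 2 n : ℝ) + 1) ^ 2)
      (fun n => C * ((n : ℝ) + 1) ^ ((1 : ℝ) / 2) / ((Nat.log 2 n : ℝ) + 1))) :
    DLINSPACE L := by
  obtain ⟨e, n₀, he⟩ := exists_accP' A C
  refine Pool.Agent.Helper28.Gen.lin_main accP (fun x => gR (Nat.log 2 x)) LS_accP
    (Pool.Agent.Helper59.Ram.LS_gR (LS.log2 LS.id)) c L (fun w y => ∃ t, A.AcceptsAt w y t)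
    (fun w y => ∃ t s, Bd C w.length (A.surf w y t).ncard s ∧ A.Fits w y t s ∧
      A.AcceptsAt w y t) ⟨e, n₀, he⟩ ?_ ?_
  · rintro w y ⟨t, ht⟩
    exact hA.1 w y t ht
  · intro w hw
    obtain ⟨y, t, s, h1, h2, h3, h4, h5⟩ := hA.2 w hw
    refine ⟨y, ?_, t, s, ⟨h2, h3⟩, h4, h5⟩
    have h1' : ((y.length : ℕ) : ℝ) ≤ (c : ℝ) * (w.length : ℝ) := h1
    exact_mod_cast h1'

end Pool.Agent.Helper20.APD
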