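import Pool.Agent.Helper20.APD.Abs
import Pool.Agent.Helper28.Ram.Mach

set_option autoImplicit false

/-!
# The simulation with a table, on numbers
-/

namespace Pool.Agent.Helper20.APD

open Pool.Agent.Helper65.LinSpace Pool.Agent.Helper78.Mpc Pool.Agent.Helper28.Ram

/-- The functions of a pushdown machine on numbers: address, kind of the move (`0` none, `1` pop,
`2` stay, `3` push), new state, new symbol. -/
structure NF where
  ad : ℕ → ℕ
  kd : ℕ → ℕ → ℕ → ℕ
  nq : ℕ → ℕ → ℕ → ℕ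
  nz : ℕ → ℕ → ℕ → ℕ

structure NF.Ok (F : NF) (B : ℕ) : Prop where
  had : ∀ q, F.ad q < B
  hnq : ∀ q z l, F.kd q z l ≠ 0 → 0 < F.nq q z l ∧ F.nq q z l < B
  hnz : ∀ q z l, 2 ≤ F.kd q z l → 0 < F.nz q z l ∧ F.nz q z l < B

/-- The abstract pushdown machine, `lc i` being the code of the letters at the position `i`. -/
def NF.pd (F : NF) (lc : ℕ → ℕ) : PD ℕ ℕ where
  mv q z :=
    if F.kd q z (lc (F.ad q)) = 0 then .fail
    else if F.kd q z (lc (F.ad q)) = 1 then .pop (F.nq q z (lc (F.ad q)))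
    else if F.kd q z (lc (F.ad q)) = 2 then
      .stay (F.nq q z (lc (F.ad q))) (F.nz q z (lc (F.ad q)))
    else .push (F.nq q z (lc (F.ad q))) (F.nz q z (lc (F.ad q)))
  acc q := accN q = 1

/-! ### Fields of a state -/

/-- A state: kind, phase, letter, two numbers smaller than `B * B`. -/
def mkX (B k ph l s p : ℕ) : ℕ := k + 4 * (ph + 2 * (l + 9 * (s + B * B * p)))

def kX (X : ℕ) : ℕ := X % 4
def phX (X : ℕ) : ℕ := X / 4 % 2
def lX (X : ℕ) : ℕ := X / 8 % 9
def sX (B X : ℕ) : ℕ := X / 72 % (B * B)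
def pX (B X : ℕ) : ℕ := X / 72 / (B * B)

theorem kX_mkX {B k ph l s p : ℕ} (hk : k < 4) : kX (mkX B k ph l s p) = k := by
  unfold kX mkX
  rw [Nat.add_mul_mod_self_left, Nat.mod_eq_of_lt hk]

theorem mkX_div4 {B k ph l s p : ℕ} (hk : k < 4) :
    mkX B k ph l s p / 4 = ph + 2 * (l + 9 * (s + B * B * p)) := by
  unfold mkX
  rw [Nat.add_mul_div_left _ _ (by norm_num), Nat.div_eq_of_lt hk, zero_add]

theorem phX_mkX {B k ph l s p : ℕ} (hk : k < 4) (hph : ph < 2) :
    phX (mkX B k ph l s p) = ph := by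
  unfold phX
  rw [mkX_div4 hk, Nat.add_mul_mod_self_left, Nat.mod_eq_of_lt hph]

theorem mkX_div8 {B k ph l s p : ℕ} (hk : k < 4) (hph : ph < 2) :
    mkX B k ph l s p / 8 = l + 9 * (s + B * B * p) := by
  have : (8 : ℕ) = 4 * 2 := rfl
  rw [this, ← Nat.div_div_eq_div_mul, mkX_div4 hk, Nat.add_mul_div_left _ _ (by norm_num),
    Nat.div_eq_of_lt hph, zero_add]

theorem lX_mkX {B k ph l s p : ℕ} (hk : k < 4) (hph : ph < 2) (hl : l < 9) :
    lX (mkX B k ph l s p) = l := by
  unfold lX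
  rw [mkX_div8 hk hph, Nat.add_mul_mod_self_left, Nat.mod_eq_of_lt hl]

theorem mkX_div72 {B k ph l s p : ℕ} (hk : k < 4) (hph : ph < 2) (hl : l < 9) :
    mkX B k ph l s p / 72 = s + B * B * p := by
  have : (72 : ℕ) = 8 * 9 := rfl
  rw [this, ← Nat.div_div_eq_div_mul, mkX_div8 hk hph, Nat.add_mul_div_left _ _ (by norm_num),
    Nat.div_eq_of_lt hl, zero_add]

theorem sX_mkX {B k ph l s p : ℕ} (hk : k < 4) (hph : ph < 2) (hl : l < 9) (hs : s < B * B) :
    sX B (mkX B k ph l s p) = s := by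
  unfold sX
  rw [mkX_div72 hk hph hl, Nat.add_mul_mod_self_left, Nat.mod_eq_of_lt hs]

theorem pX_mkX {B k ph l s p : ℕ} (hk : k < 4) (hph : ph < 2) (hl : l < 9) (hs : s < B * B) :
    pX B (mkX B k ph l s p) = p := by
  unfold pX
  rw [mkX_div72 hk hph hl, Nat.add_mul_div_left _ _ (by omega), Nat.div_eq_of_lt hs, zero_add]

/-! ### The machine -/

/-- The address. -/
def AA (F : NF) (B X : ℕ) : ℕ :=
  ifz (phX X) (ifz (eq01 (kX X) 2) 0 (F.ad (sX B X % B))) (ifz (eq01 (kX X) 2) (pX B X) (sX B X))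

/-- The new state after a call, for an unknown entry; `q`, `z`, `l` are the state, the symbol and
the letter. -/
def N0 (F : NF) (B q z l s p : ℕ) : ℕ :=
  ifz (F.kd q z l) 0 (ifz (F.kd q z l - 1)
    (ifz (accN (F.nq q z l)) (mkX B 3 0 0 (F.nq q z l) p) 1)
    (mkX B 2 0 0 (F.nq q z l + B * F.nz q z l) s))

/-- The new state. -/
def NN (F : NF) (B X v : ℕ) : ℕ :=
  ifz (kX X / 2) X (ifz (phX X) (mkX B (kX X) 1 (v % 9) (sX B X) (pX B X))
    (ifz (kX X - 2)
      (ifz (accN (sX B X % B))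
        (ifz (v % 4) (N0 F B (sX B X % B) (sX B X / B) (lX X) (sX B X) (pX B X))
          (ifz (v % 4 - 2) 0 (mkX B 3 0 0 (v / 4) (pX B X))))
        1)
      (ifz (pX B X) 0
        (ifz (v % 4) 0 (ifz (v % 4 - 1) (mkX B 2 0 0 (sX B X + B * (pX B X / B)) (pX B X))
          (ifz (v % 4 - 2) (mkX B 3 0 0 (sX B X) (v / 4)) 0))))))

/-- The written value after a call, for an unknown entry. -/
def W0 (F : NF) (q z l p v : ℕ) : ℕ :=
  ifz (F.kd q z l) v (ifz (F.kd q z l - 1)
    (ifz (accN (F.nq q z l)) (3 + 4 * F.nq q z l) v)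
    (ifz (F.kd q z l - 2) (2 + 4 * p) (1 + 4 * p)))

/-- The written value. -/
def WW (F : NF) (B X v : ℕ) : ℕ :=
  ifz (kX X / 2) v (ifz (phX X) v
    (ifz (kX X - 2)
      (ifz (accN (sX B X % B))
        (ifz (v % 4) (W0 F (sX B X % B) (sX B X / B) (lX X) (pX B X) v) v) v)
      (ifz (pX B X) v
        (ifz (v % 4) v (ifz (v % 4 - 1) (v + 1) (ifz (v % 4 - 2) (3 + 4 * sX B X) v))))))

/-! ### Codes -/

def Val (B : ℕ) (c : ℕ × ℕ) : Prop := (0 < c.1 ∧ c.1 < B) ∧ 0 < c.2 ∧ c.2 < B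

def encC (B : ℕ) (c : ℕ × ℕ) : ℕ := c.1 + B * c.2

def encP (B : ℕ) : Option (ℕ × ℕ) → ℕ
  | none => 0
  | some c => encC B c

def ValP (B : ℕ) : Option (ℕ × ℕ) → Prop
  | none => True
  | some c => Val B c

def encE (B : ℕ) : Entry ℕ ℕ → ℕ
  | .none => 0
  | .w1 p => 1 + 4 * encP B p
  | .w2 p => 2 + 4 * encP B p
  | .done v => 3 + 4 * v

def ValE (B : ℕ) : Entry ℕ ℕ → Prop
  | .none => True
  | .w1 p => ValP B p
  | .w2 p => ValP B p
  | .done v => 0 < v ∧ v < B

def encS (B : ℕ) : SS ℕ ℕ → ℕ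
  | .halt => 0
  | .acc => 1
  | .call c p => mkX B 2 0 0 (encC B c) (encP B p)
  | .ret p v => mkX B 3 0 0 v (encP B p)

def ValS (B : ℕ) : SS ℕ ℕ → Prop
  | .halt => True
  | .acc => True
  | .call c p => Val B c ∧ ValP B p
  | .ret p v => (0 < v ∧ v < B) ∧ ValP B p

/-- The machine on numbers and the simulation agree. -/
structure Rel (B : ℕ) (lc : ℕ → ℕ) (x : ℕ × (ℕ → ℕ)) (s : SS ℕ ℕ × (ℕ × ℕ → Entry ℕ ℕ)) : Prop where
  h1 : x.1 = encS B s.1
  h2 : ValS B s.1
  h3 : ∀ c, Val B c → x.2 (encC B c) = encE B (s.2 c) ∧ ValE B (s.2 c)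
  h4 : ∀ i < B, x.2 i = lc i

theorem encC_lt {B : ℕ} {c : ℕ × ℕ} (h : Val B c) : encC B c < B * B := by
  obtain ⟨⟨_, h1⟩, _, h2⟩ := h
  unfold encC
  have : B * (c.2 + 1) ≤ B * B := Nat.mul_le_mul_left _ h2
  rw [Nat.mul_add, mul_one] at this
  omega

theorem encC_mod {B : ℕ} {c : ℕ × ℕ} (h : Val B c) : encC B c % B = c.1 := by
  unfold encC
  rw [Nat.add_mul_mod_self_left, Nat.mod_eq_of_lt h.1.2]

theorem encC_div {B : ℕ} {c : ℕ × ℕ} (h : Val B c) : encC B c / B = c.2 := by
  unfold encC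
  have hB : 0 < B := by
    have := h.1
    omega
  rw [Nat.add_mul_div_left _ _ hB, Nat.div_eq_of_lt h.1.2, zero_add]

theorem encC_ge {B : ℕ} {c : ℕ × ℕ} (h : Val B c) : B < encC B c := by
  obtain ⟨⟨h0, h1⟩, h2, _⟩ := h
  unfold encC
  have : B * 1 ≤ B * c.2 := Nat.mul_le_mul_left _ h2
  omega

theorem encC_inj {B : ℕ} {c c' : ℕ × ℕ} (h : Val B c) (h' : Val B c')
    (he : encC B c = encC B c') : c = c' := by
  refine Prod.ext ?_ ?_
  · rw [← encC_mod h, ← encC_mod h', he]
  · rw [← encC_div h, ← encC_div h', he]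

theorem encP_lt {B : ℕ} (hB : 0 < B) {p : Option (ℕ × ℕ)} (h : ValP B p) : encP B p < B * B := by
  rcases p with _ | c
  · exact Nat.mul_pos hB hB
  · exact encC_lt h

theorem encP_some_pos {B : ℕ} {c : ℕ × ℕ} (h : Val B c) : encP B (some c) ≠ 0 := by
  have := encC_ge h
  show encC B c ≠ 0
  omega

/-! ### Two steps of the machine are one step of the simulation -/

/-- One step on numbers. -/
def st1 (F : NF) (B : ℕ) (x : ℕ × (ℕ → ℕ)) : ℕ × (ℕ → ℕ) :=
  (NN F B x.1 (x.2 (AA F B x.1)),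
    Function.update x.2 (AA F B x.1) (WW F B x.1 (x.2 (AA F B x.1))))

theorem kX_zero : kX 0 = 0 := rfl

theorem kX_one : kX 1 = 1 := rfl

theorem st1_halt (F : NF) (B : ℕ) (M : ℕ → ℕ) : st1 F B (0, M) = (0, M) := by
  unfold st1 NN WW
  simp only [kX_zero, Nat.zero_div, ifz_zero, Function.update_eq_self]

theorem st1_acc (F : NF) (B : ℕ) (M : ℕ → ℕ) : st1 F B (1, M) = (1, M) := by
  unfold st1 NN WW
  simp only [kX_one, show (1 : ℕ) / 2 = 0 from rfl, ifz_zero, Function.update_eq_self]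

theorem st1_ph0 (F : NF) (B : ℕ) {k s p : ℕ} (hk : k = 2 ∨ k = 3) (hs : s < B * B) (M : ℕ → ℕ) :
    st1 F B (mkX B k 0 0 s p, M) =
      (mkX B k 1 (M (ifz (eq01 k 2) 0 (F.ad (s % B))) % 9) s p, M) := by
  have hk4 : k < 4 := by omega
  unfold st1 NN WW AA
  simp only [kX_mkX hk4, phX_mkX hk4 (show (0 : ℕ) < 2 by norm_num), ifz_zero,
    sX_mkX hk4 (show (0 : ℕ) < 2 by norm_num) (show (0 : ℕ) < 9 by norm_num) hs,
    pX_mkX hk4 (show (0 : ℕ) < 2 by norm_num) (show (0 : ℕ) < 9 by norm_num) hs]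
  have h2 : k / 2 ≠ 0 := by omega
  rw [ifz_ne h2, ifz_ne h2, Function.update_eq_self]

theorem st1_call (F : NF) (B : ℕ) {l s p : ℕ} (hl : l < 9) (hs : s < B * B) (M : ℕ → ℕ) :
    st1 F B (mkX B 2 1 l s p, M) =
      (ifz (accN (s % B))
        (ifz (M s % 4) (N0 F B (s % B) (s / B) l s p)
          (ifz (M s % 4 - 2) 0 (mkX B 3 0 0 (M s / 4) p))) 1,
        Function.update M s (ifz (accN (s % B))
          (ifz (M s % 4) (W0 F (s % B) (s / B) l p (M s)) (M s)) (M s))) := by
  unfold st1 NN WW AA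
  simp only [kX_mkX (show (2 : ℕ) < 4 by norm_num),
    phX_mkX (show (2 : ℕ) < 4 by norm_num) (show (1 : ℕ) < 2 by norm_num),
    lX_mkX (show (2 : ℕ) < 4 by norm_num) (show (1 : ℕ) < 2 by norm_num) hl,
    sX_mkX (show (2 : ℕ) < 4 by norm_num) (show (1 : ℕ) < 2 by norm_num) hl hs,
    pX_mkX (show (2 : ℕ) < 4 by norm_num) (show (1 : ℕ) < 2 by norm_num) hl hs]
  have e1 : eq01 2 2 = 1 := rfl
  simp only [e1, ifz_ne one_ne_zero, show (2 : ℕ) / 2 = 1 from rfl, show (2 : ℕ) - 2 = 0 from rfl,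
    ifz_zero]

theorem st1_ret (F : NF) (B : ℕ) {l s p : ℕ} (hl : l < 9) (hs : s < B * B) (M : ℕ → ℕ) :
    st1 F B (mkX B 3 1 l s p, M) =
      (ifz p 0 (ifz (M p % 4) 0 (ifz (M p % 4 - 1) (mkX B 2 0 0 (s + B * (p / B)) p)
          (ifz (M p % 4 - 2) (mkX B 3 0 0 s (M p / 4)) 0))),
        Function.update M p (ifz p (M p) (ifz (M p % 4) (M p) (ifz (M p % 4 - 1) (M p + 1)
          (ifz (M p % 4 - 2) (3 + 4 * s) (M p)))))) := by
  unfold st1 NN WW AA
  simp only [kX_mkX (show (3 : ℕ) < 4 by norm_num),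
    phX_mkX (show (3 : ℕ) < 4 by norm_num) (show (1 : ℕ) < 2 by norm_num),
    lX_mkX (show (3 : ℕ) < 4 by norm_num) (show (1 : ℕ) < 2 by norm_num) hl,
    sX_mkX (show (3 : ℕ) < 4 by norm_num) (show (1 : ℕ) < 2 by norm_num) hl hs,
    pX_mkX (show (3 : ℕ) < 4 by norm_num) (show (1 : ℕ) < 2 by norm_num) hl hs]
  have e1 : eq01 3 2 = 0 := rfl
  simp only [e1, ifz_zero, ifz_ne one_ne_zero, show (3 : ℕ) / 2 = 1 from rfl,
    show (3 : ℕ) - 2 = 1 from rfl]

theorem accN_01 (q : ℕ) : accN q = 0 ∨ accN q = 1 := by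
  have := accN_le q
  omega

theorem upd_same {M : ℕ → ℕ} {a v : ℕ} (h : M a = v) : Function.update M a v = M := by
  subst h
  exact Function.update_eq_self _ _

theorem upd_rel {B : ℕ} {lc : ℕ → ℕ} {M : ℕ → ℕ} {T : ℕ × ℕ → Entry ℕ ℕ} {c : ℕ × ℕ}
    {e : Entry ℕ ℕ} (hc : Val B c) (he : ValE B e)
    (h3 : ∀ c, Val B c → M (encC B c) = encE B (T c) ∧ ValE B (T c)) (h4 : ∀ i < B, M i = lc i)
    {v : ℕ} (hv : v = encE B e) :
    (∀ c', Val B c' → Function.update M (encC B c) v (encC B c') =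
      encE B (Function.update T c e c') ∧ ValE B (Function.update T c e c')) ∧
    ∀ i < B, Function.update M (encC B c) v i = lc i := by
  constructor
  · intro c' hc'
    by_cases h : c' = c
    · subst h
      rw [Function.update_self, Function.update_self]
      exact ⟨hv, he⟩
    · rw [Function.update_of_ne h, Function.update_of_ne]
      · exact h3 c' hc'
      · exact fun hh => h (encC_inj hc' hc hh)
  · intro i hi
    rw [Function.update_of_ne]
    · exact h4 i hi
    · have := encC_ge hc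
      omega

theorem rel_step {F : NF} {B : ℕ} (hF : F.Ok B) (hB : 0 < B) {lc : ℕ → ℕ} (hlc : ∀ i, lc i < 9)
    {x : ℕ × (ℕ → ℕ)} {s : SS ℕ ℕ × (ℕ × ℕ → Entry ℕ ℕ)} (h : Rel B lc x s) :
    Rel B lc (st1 F B (st1 F B x)) (sstep (F.pd lc) s) := by
  obtain ⟨X, M⟩ := x
  obtain ⟨s, T⟩ := s
  obtain ⟨h1, h2, h3, h4⟩ := h
  simp only at h1 h2 h3 h4
  have hBB : 0 < B * B := Nat.mul_pos hB hB
  rcases s with _ | _ | ⟨c, p⟩ | ⟨p, v⟩
  · rw [h1]
    show Rel B lc (st1 F B (st1 F B (0, M))) (.halt, T)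
    rw [st1_halt, st1_halt]
    exact ⟨rfl, trivial, h3, h4⟩
  · rw [h1]
    show Rel B lc (st1 F B (st1 F B (1, M))) (.acc, T)
    rw [st1_acc, st1_acc]
    exact ⟨rfl, trivial, h3, h4⟩
  · obtain ⟨hc, hp⟩ := h2
    have hs := encC_lt hc
    have hpl := encP_lt hB hp
    have hM := h3 c hc
    have hl : M (F.ad c.1) = lc (F.ad c.1) := h4 _ (hF.had _)
    have hX : st1 F B (X, M) = (mkX B 2 1 (lc (F.ad c.1)) (encC B c) (encP B p), M) := by
      rw [h1]
      show st1 F B (mkX B 2 0 0 (encC B c) (encP B p), M) = _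
      rw [st1_ph0 F B (Or.inl rfl) hs, encC_mod hc]
      have e1 : eq01 2 2 = 1 := rfl
      rw [e1, ifz_ne one_ne_zero, hl, Nat.mod_eq_of_lt (hlc _)]
    rw [hX, st1_call F B (hlc _) hs, encC_mod hc, encC_div hc, hM.1]
    rcases accN_01 c.1 with ha | ha
    · have hacc : ¬ (F.pd lc).acc c.1 := by
        show ¬ accN c.1 = 1
        omega
      simp only [ha, ifz_zero]
      rcases hT : T c with _ | p' | p' | v
      · have e0 : encE B Entry.none = 0 := rfl
        simp only [e0, Nat.zero_mod, ifz_zero]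
        unfold N0 W0
        by_cases k0 : F.kd c.1 c.2 (lc (F.ad c.1)) = 0
        · have hmv : (F.pd lc).mv c.1 c.2 = .fail := if_pos k0
          have e : sstep (F.pd lc) (.call c p, T) = (.halt, T) := by
            simp only [sstep, hacc, if_false, hT, hmv]
          rw [e, k0, ifz_zero, ifz_zero]
          rw [upd_same (by rw [hM.1, hT]; rfl)]
          exact ⟨rfl, trivial, h3, h4⟩
        · rw [ifz_ne k0, ifz_ne k0]
          obtain ⟨hq0, hqB⟩ := hF.hnq c.1 c.2 (lc (F.ad c.1)) k0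
          by_cases k1 : F.kd c.1 c.2 (lc (F.ad c.1)) = 1
          · have hmv : (F.pd lc).mv c.1 c.2 = .pop (F.nq c.1 c.2 (lc (F.ad c.1))) := by
              show (if _ then _ else _) = _
              rw [if_neg k0, if_pos k1]
            rw [k1]
            simp only [Nat.sub_self, ifz_zero]
            rcases accN_01 (F.nq c.1 c.2 (lc (F.ad c.1))) with hv | hv
            · have hacc' : ¬ (F.pd lc).acc (F.nq c.1 c.2 (lc (F.ad c.1))) := by
                show ¬ accN _ = 1
                omega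
              have e : sstep (F.pd lc) (.call c p, T) = (.ret p (F.nq c.1 c.2 (lc (F.ad c.1))),
                  Function.update T c (.done (F.nq c.1 c.2 (lc (F.ad c.1))))) := by
                simp only [sstep, hacc, if_false, hT, hmv, hacc']
              rw [e, hv, ifz_zero, ifz_zero]
              obtain ⟨r3, r4⟩ := upd_rel hc (e := .done (F.nq c.1 c.2 (lc (F.ad c.1))))
                ⟨hq0, hqB⟩ h3 h4 (v := 3 + 4 * F.nq c.1 c.2 (lc (F.ad c.1))) rfl
              exact ⟨rfl, ⟨⟨hq0, hqB⟩, hp⟩, r3, r4⟩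
            · have hacc' : (F.pd lc).acc (F.nq c.1 c.2 (lc (F.ad c.1))) := hv
              have e : sstep (F.pd lc) (.call c p, T) = (.acc, T) := by
                simp only [sstep, hacc, if_false, hT, hmv, hacc', if_true]
              rw [e, hv, ifz_ne one_ne_zero, ifz_ne one_ne_zero]
              rw [upd_same (by rw [hM.1, hT]; rfl)]
              exact ⟨rfl, trivial, h3, h4⟩
          · have k1' : F.kd c.1 c.2 (lc (F.ad c.1)) - 1 ≠ 0 := by omega
            rw [ifz_ne k1', ifz_ne k1']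
            obtain ⟨hz0, hzB⟩ := hF.hnz c.1 c.2 (lc (F.ad c.1)) (by omega)
            have hc2 : Val B (F.nq c.1 c.2 (lc (F.ad c.1)), F.nz c.1 c.2 (lc (F.ad c.1))) :=
              ⟨⟨hq0, hqB⟩, hz0, hzB⟩
            by_cases k2 : F.kd c.1 c.2 (lc (F.ad c.1)) = 2
            · have hmv : (F.pd lc).mv c.1 c.2 = .stay (F.nq c.1 c.2 (lc (F.ad c.1)))
                  (F.nz c.1 c.2 (lc (F.ad c.1))) := by
                show (if _ then _ else _) = _
                rw [if_neg k0, if_neg k1, if_pos k2]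
              have e : sstep (F.pd lc) (.call c p, T) = (.call (F.nq c.1 c.2 (lc (F.ad c.1)),
                  F.nz c.1 c.2 (lc (F.ad c.1))) (some c), Function.update T c (.w2 p)) := by
                simp only [sstep, hacc, if_false, hT, hmv]
              rw [e, k2]
              simp only [Nat.sub_self, ifz_zero]
              obtain ⟨r3, r4⟩ := upd_rel hc (e := .w2 p) hp h3 h4 (v := 2 + 4 * encP B p) rfl
              exact ⟨rfl, ⟨hc2, hc⟩, r3, r4⟩
            · have hmv : (F.pd lc).mv c.1 c.2 = .push (F.nq c.1 c.2 (lc (F.ad c.1)))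
                  (F.nz c.1 c.2 (lc (F.ad c.1))) := by
                show (if _ then _ else _) = _
                rw [if_neg k0, if_neg k1, if_neg k2]
              have e : sstep (F.pd lc) (.call c p, T) = (.call (F.nq c.1 c.2 (lc (F.ad c.1)),
                  F.nz c.1 c.2 (lc (F.ad c.1))) (some c), Function.update T c (.w1 p)) := by
                simp only [sstep, hacc, if_false, hT, hmv]
              have k2' : F.kd c.1 c.2 (lc (F.ad c.1)) - 2 ≠ 0 := by omega
              rw [e, ifz_ne k2']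
              obtain ⟨r3, r4⟩ := upd_rel hc (e := .w1 p) hp h3 h4 (v := 1 + 4 * encP B p) rfl
              exact ⟨rfl, ⟨hc2, hc⟩, r3, r4⟩
      · have e : sstep (F.pd lc) (.call c p, T) = (.halt, T) := by
          simp only [sstep, hacc, if_false, hT]
        have m4 : encE B (.w1 p') % 4 = 1 := by
          show (1 + 4 * encP B p') % 4 = 1
          omega
        rw [e, m4, ifz_ne one_ne_zero, ifz_ne one_ne_zero, ← hT, ← hM.1,
          Function.update_eq_self]
        exact ⟨rfl, trivial, h3, h4⟩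
      · have e : sstep (F.pd lc) (.call c p, T) = (.halt, T) := by
          simp only [sstep, hacc, if_false, hT]
        have m4 : encE B (.w2 p') % 4 = 2 := by
          show (2 + 4 * encP B p') % 4 = 2
          omega
        rw [e, m4, ifz_ne two_ne_zero, ifz_ne two_ne_zero, ← hT, ← hM.1,
          Function.update_eq_self]
        exact ⟨rfl, trivial, h3, h4⟩
      · have e : sstep (F.pd lc) (.call c p, T) = (.ret p v, T) := by
          simp only [sstep, hacc, if_false, hT]
        have m4 : encE B (.done v) % 4 = 3 := by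
          show (3 + 4 * v) % 4 = 3
          omega
        have d4 : encE B (.done v) / 4 = v := by
          show (3 + 4 * v) / 4 = v
          omega
        have hvE := hM.2
        rw [hT] at hvE
        rw [e, m4, d4, ifz_ne three_ne_zero, ifz_ne three_ne_zero, ← hT, ← hM.1,
          Function.update_eq_self]
        exact ⟨rfl, ⟨hvE, hp⟩, h3, h4⟩
    · have hacc : (F.pd lc).acc c.1 := ha
      have e : sstep (F.pd lc) (.call c p, T) = (.acc, T) := by
        simp only [sstep, hacc, if_true]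
      rw [e, ha, ifz_ne one_ne_zero, ifz_ne one_ne_zero, ← hM.1, Function.update_eq_self]
      exact ⟨rfl, trivial, h3, h4⟩
  · obtain ⟨hv, hp⟩ := h2
    have hvB : v < B * B := lt_of_lt_of_le hv.2 (Nat.le_mul_of_pos_left _ hB)
    obtain ⟨l, hl, hX⟩ : ∃ l < 9, st1 F B (X, M) = (mkX B 3 1 l v (encP B p), M) := by
      refine ⟨M 0 % 9, Nat.mod_lt _ (by norm_num), ?_⟩
      rw [h1]
      show st1 F B (mkX B 3 0 0 v (encP B p), M) = _
      rw [st1_ph0 F B (Or.inr rfl) hvB]
      have e1 : eq01 3 2 = 0 := rfl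
      rw [e1, ifz_zero]
    rw [hX, st1_ret F B hl hvB]
    rcases p with _ | c
    · show Rel B lc (ifz 0 _ _, Function.update M 0 (ifz 0 (M 0) _)) (.halt, T)
      rw [ifz_zero, ifz_zero, Function.update_eq_self]
      exact ⟨rfl, trivial, h3, h4⟩
    · have hc : Val B c := hp
      have hne : encP B (some c) ≠ 0 := encP_some_pos hc
      rw [ifz_ne hne, ifz_ne hne]
      have hcc : encP B (some c) = encC B c := rfl
      rw [hcc, encC_div hc]
      have hM := h3 c hc
      rw [hM.1]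
      rcases hT : T c with _ | p' | p' | w
      · have e : sstep (F.pd lc) (.ret (some c) v, T) = (.halt, T) := by
          simp only [sstep, hT]
        have e0 : encE B Entry.none = 0 := rfl
        rw [e]
        simp only [e0, Nat.zero_mod, ifz_zero]
        rw [upd_same (by rw [hM.1, hT]; rfl)]
        exact ⟨rfl, trivial, h3, h4⟩
      · have e : sstep (F.pd lc) (.ret (some c) v, T) =
            (.call (v, c.2) (some c), Function.update T c (.w2 p')) := by
          simp only [sstep, hT]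
        have m4 : encE B (.w1 p') % 4 = 1 := by
          show (1 + 4 * encP B p') % 4 = 1
          omega
        have hpE := hM.2
        rw [hT] at hpE
        rw [e, m4, ifz_ne one_ne_zero, ifz_ne one_ne_zero]
        simp only [Nat.sub_self, ifz_zero]
        obtain ⟨r3, r4⟩ := upd_rel hc (e := .w2 p') hpE h3 h4
          (v := encE B (.w1 p') + 1) (by
            show 1 + 4 * encP B p' + 1 = 2 + 4 * encP B p'
            omega)
        exact ⟨rfl, ⟨⟨hv, hc.2⟩, hc⟩, r3, r4⟩
      · have e : sstep (F.pd lc) (.ret (some c) v, T) =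
            (.ret p' v, Function.update T c (.done v)) := by
          simp only [sstep, hT]
        have m4 : encE B (.w2 p') % 4 = 2 := by
          show (2 + 4 * encP B p') % 4 = 2
          omega
        have d4 : encE B (.w2 p') / 4 = encP B p' := by
          show (2 + 4 * encP B p') / 4 = _
          omega
        have hpE := hM.2
        rw [hT] at hpE
        rw [e, m4, d4, ifz_ne two_ne_zero, ifz_ne two_ne_zero,
          ifz_ne (show 2 - 1 ≠ 0 by norm_num), ifz_ne (show 2 - 1 ≠ 0 by norm_num)]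
        simp only [Nat.sub_self, ifz_zero]
        obtain ⟨r3, r4⟩ := upd_rel hc (e := .done v) hv h3 h4 (v := 3 + 4 * v) rfl
        exact ⟨rfl, ⟨hv, hpE⟩, r3, r4⟩
      · have e : sstep (F.pd lc) (.ret (some c) v, T) = (.halt, T) := by
          simp only [sstep, hT]
        have m4 : encE B (.done w) % 4 = 3 := by
          show (3 + 4 * w) % 4 = 3
          omega
        rw [e, m4, ifz_ne three_ne_zero, ifz_ne three_ne_zero,
          ifz_ne (show 3 - 1 ≠ 0 by norm_num), ifz_ne (show 3 - 1 ≠ 0 by norm_num),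
          ifz_ne (show 3 - 2 ≠ 0 by norm_num), ifz_ne (show 3 - 2 ≠ 0 by norm_num), ← hT,
          ← hM.1, Function.update_eq_self]
        exact ⟨rfl, trivial, h3, h4⟩

end Pool.Agent.Helper20.APD
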