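import Mathlib

set_option autoImplicit false

/-!
# Pushdown machines and their simulation with a table (after Cook 1971)

Abstract part: the pushdown machine, the evaluation relation of surface configurations, the
simulation with a table of results, its correctness and its running time.
-/

namespace Pool.Agent.Helper20.APD

/-- The moves of a pushdown machine: no move, remove the top of the stack, replace it, put a new
symbol on top of it. -/
inductive Mv (Q Z : Type)
  | fail
  | pop (q : Q)
  | stay (q : Q) (z : Z)
  | push (q : Q) (z : Z)

/-- A pushdown machine (for a fixed input). -/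
structure PD (Q Z : Type) where
  mv : Q → Z → Mv Q Z
  acc : Q → Prop

variable {Q Z : Type}

/-- One step. A configuration consists of the state and the stack, its top first. -/
def PD.step (P : PD Q Z) : Q × List Z → Q × List Z
  | (q, []) => (q, [])
  | (q, z :: st) =>
    match P.mv q z with
    | .fail => (q, z :: st)
    | .pop q' => (q', st)
    | .stay q' z' => (q', z' :: st)
    | .push q' z' => (q', z' :: z :: st)

/-- The configuration after `t` steps. -/
def PD.run (P : PD Q Z) (t : ℕ) (c : Q × List Z) : Q × List Z := P.step^[t] c

theorem PD.run_add (P : PD Q Z) (s t : ℕ) (c : Q × List Z) :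
    P.run (s + t) c = P.run t (P.run s c) := by
  unfold PD.run
  rw [add_comm, Function.iterate_add_apply]

theorem PD.run_one (P : PD Q Z) (c : Q × List Z) : P.run 1 c = P.step c := rfl

theorem PD.run_nil (P : PD Q Z) (t : ℕ) (q : Q) : P.run t (q, []) = (q, []) := by
  induction t with
  | zero => rfl
  | succ t ih => rw [add_comm, P.run_add, P.run_one]; exact ih

/-- Evaluation of a surface configuration (state and top of the stack) within the set `V`: after
`m` steps the machine accepts (result `none`) or the top of the stack is removed for the first time,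
in the state `v` (result `some v`). -/
inductive Ev (P : PD Q Z) (V : Set (Q × Z)) : Q × Z → ℕ → Option Q → Prop
  | acc (q : Q) (z : Z) : P.acc q → Ev P V (q, z) 0 none
  | popAcc (q : Q) (z : Z) (v : Q) : ¬ P.acc q → (q, z) ∈ V → P.mv q z = .pop v → P.acc v →
      Ev P V (q, z) 1 none
  | pop (q : Q) (z : Z) (v : Q) : ¬ P.acc q → (q, z) ∈ V → P.mv q z = .pop v → ¬ P.acc v →
      Ev P V (q, z) 1 (some v)
  | stay (q : Q) (z : Z) (q' : Q) (z' : Z) (m : ℕ) (o : Option Q) : ¬ P.acc q → (q, z) ∈ V →
      P.mv q z = .stay q' z' → Ev P V (q', z') m o → Ev P V (q, z) (m + 1) o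
  | pushAcc (q : Q) (z : Z) (q' : Q) (z' : Z) (m : ℕ) : ¬ P.acc q → (q, z) ∈ V →
      P.mv q z = .push q' z' → Ev P V (q', z') m none → Ev P V (q, z) (m + 1) none
  | push (q : Q) (z : Z) (q' : Q) (z' : Z) (m : ℕ) (v : Q) (m' : ℕ) (o : Option Q) : ¬ P.acc q →
      (q, z) ∈ V → P.mv q z = .push q' z' → Ev P V (q', z') m (some v) → Ev P V (v, z) m' o →
      Ev P V (q, z) (m + m' + 1) o

theorem Ev.mono {P : PD Q Z} {V V' : Set (Q × Z)} (h : V ⊆ V') {c : Q × Z} {m : ℕ} {o : Option Q}
    (he : Ev P V c m o) : Ev P V' c m o := by
  induction he with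
  | acc q z hq => exact .acc q z hq
  | popAcc q z v h1 h2 h3 h4 => exact .popAcc q z v h1 (h h2) h3 h4
  | pop q z v h1 h2 h3 h4 => exact .pop q z v h1 (h h2) h3 h4
  | stay q z q' z' m o h1 h2 h3 _ ih => exact .stay q z q' z' m o h1 (h h2) h3 ih
  | pushAcc q z q' z' m h1 h2 h3 _ ih => exact .pushAcc q z q' z' m h1 (h h2) h3 ih
  | push q z q' z' m v m' o h1 h2 h3 _ _ ih1 ih2 =>
    exact .push q z q' z' m v m' o h1 (h h2) h3 ih1 ih2

/-- The evaluation is deterministic. -/
theorem Ev.det {P : PD Q Z} {V V' : Set (Q × Z)} {c : Q × Z} {m : ℕ} {o : Option Q}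
    (h1 : Ev P V c m o) : ∀ {m' : ℕ} {o' : Option Q}, Ev P V' c m' o' → m = m' ∧ o = o' := by
  induction h1 with
  | acc q z hq =>
    intro m' o' h2
    cases h2 with
    | acc => exact ⟨rfl, rfl⟩
    | popAcc _ _ _ h => exact absurd hq h
    | pop _ _ _ h => exact absurd hq h
    | stay _ _ _ _ _ _ h => exact absurd hq h
    | pushAcc _ _ _ _ _ h => exact absurd hq h
    | push _ _ _ _ _ _ _ _ h => exact absurd hq h
  | popAcc q z v a1 a2 a3 a4 =>
    intro m' o' h2
    cases h2 with
    | acc _ _ h => exact absurd h a1
    | popAcc _ _ v' _ _ h3 => exact ⟨rfl, rfl⟩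
    | pop _ _ v' _ _ h3 h4 =>
      rw [a3] at h3
      cases h3
      exact absurd a4 h4
    | stay _ _ _ _ _ _ _ _ h3 => rw [a3] at h3; cases h3
    | pushAcc _ _ _ _ _ _ _ h3 => rw [a3] at h3; cases h3
    | push _ _ _ _ _ _ _ _ _ _ h3 => rw [a3] at h3; cases h3
  | pop q z v a1 a2 a3 a4 =>
    intro m' o' h2
    cases h2 with
    | acc _ _ h => exact absurd h a1
    | popAcc _ _ v' _ _ h3 h4 =>
      rw [a3] at h3
      cases h3
      exact absurd h4 a4
    | pop _ _ v' _ _ h3 h4 =>
      rw [a3] at h3
      cases h3
      exact ⟨rfl, rfl⟩
    | stay _ _ _ _ _ _ _ _ h3 => rw [a3] at h3; cases h3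
    | pushAcc _ _ _ _ _ _ _ h3 => rw [a3] at h3; cases h3
    | push _ _ _ _ _ _ _ _ _ _ h3 => rw [a3] at h3; cases h3
  | stay q z q' z' m o a1 a2 a3 _ ih =>
    intro m' o' h2
    cases h2 with
    | acc _ _ h => exact absurd h a1
    | popAcc _ _ v' _ _ h3 h4 => rw [a3] at h3; cases h3
    | pop _ _ v' _ _ h3 h4 => rw [a3] at h3; cases h3
    | stay _ _ _ _ _ _ _ _ h3 h4 =>
      rw [a3] at h3
      cases h3
      obtain ⟨e1, e2⟩ := ih h4
      exact ⟨by rw [e1], e2⟩
    | pushAcc _ _ _ _ _ _ _ h3 => rw [a3] at h3; cases h3
    | push _ _ _ _ _ _ _ _ _ _ h3 => rw [a3] at h3; cases h3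
  | pushAcc q z q' z' m a1 a2 a3 _ ih =>
    intro m' o' h2
    cases h2 with
    | acc _ _ h => exact absurd h a1
    | popAcc _ _ v' _ _ h3 h4 => rw [a3] at h3; cases h3
    | pop _ _ v' _ _ h3 h4 => rw [a3] at h3; cases h3
    | stay _ _ _ _ _ _ _ _ h3 h4 => rw [a3] at h3; cases h3
    | pushAcc _ _ _ _ _ _ _ h3 h4 =>
      rw [a3] at h3
      cases h3
      obtain ⟨e1, e2⟩ := ih h4
      exact ⟨by rw [e1], rfl⟩
    | push _ _ _ _ _ _ _ _ _ _ h3 h4 h5 =>
      rw [a3] at h3
      cases h3
      obtain ⟨e1, e2⟩ := ih h4
      cases e2
  | push q z q' z' m v m1 o a1 a2 a3 _ _ ih1 ih2 =>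
    intro m' o' h2
    cases h2 with
    | acc _ _ h => exact absurd h a1
    | popAcc _ _ v' _ _ h3 h4 => rw [a3] at h3; cases h3
    | pop _ _ v' _ _ h3 h4 => rw [a3] at h3; cases h3
    | stay _ _ _ _ _ _ _ _ h3 h4 => rw [a3] at h3; cases h3
    | pushAcc _ _ _ _ _ _ _ h3 h4 =>
      rw [a3] at h3
      cases h3
      obtain ⟨e1, e2⟩ := ih1 h4
      cases e2
    | push _ _ _ _ _ _ _ _ _ _ h3 h4 h5 =>
      rw [a3] at h3
      cases h3
      obtain ⟨e1, e2⟩ := ih1 h4
      cases e2
      obtain ⟨e3, e4⟩ := ih2 h5
      exact ⟨by rw [e1, e3], e4⟩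

/-- A result `some v` of an evaluation describes the run. -/
theorem Ev.run_some {P : PD Q Z} {V : Set (Q × Z)} {c : Q × Z} {m : ℕ} {o : Option Q}
    (h : Ev P V c m o) : ∀ v, o = some v → ∀ st, P.run m (c.1, c.2 :: st) = (v, st) := by
  induction h with
  | acc q z hq => intro v hv; cases hv
  | popAcc q z v h1 h2 h3 h4 => intro v hv; cases hv
  | pop q z v h1 h2 h3 h4 =>
    intro v' hv st
    cases hv
    rw [P.run_one]
    simp only [PD.step, h3]
  | stay q z q' z' m o h1 h2 h3 _ ih =>
    intro v' hv st
    rw [add_comm, P.run_add, P.run_one]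
    have e : P.step (q, z :: st) = (q', z' :: st) := by simp only [PD.step, h3]
    rw [e]
    exact ih v' hv st
  | pushAcc q z q' z' m h1 h2 h3 _ ih => intro v hv; cases hv
  | push q z q' z' m v m' o h1 h2 h3 _ _ ih1 ih2 =>
    intro v' hv st
    rw [add_comm, P.run_add, P.run_one]
    have e : P.step (q, z :: st) = (q', z' :: z :: st) := by simp only [PD.step, h3]
    rw [e, P.run_add, ih1 v rfl (z :: st)]
    exact ih2 v' hv st

/-- From a run to an evaluation. -/
theorem exists_ev (P : PD Q Z) (V : Set (Q × Z)) : ∀ (T : ℕ) (q : Q) (z : Z) (st : List Z),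
    (∀ t < T, ¬ P.acc (P.run t (q, z :: st)).1) →
    (∀ t < T, ∀ z' st', (P.run t (q, z :: st)).2 = z' :: st' →
      ((P.run t (q, z :: st)).1, z') ∈ V) →
    P.acc (P.run T (q, z :: st)).1 →
    Ev P V (q, z) T none ∨ ∃ m ≤ T, ∃ v, Ev P V (q, z) m (some v) ∧
      P.run m (q, z :: st) = (v, st) ∧ ¬ P.acc v := by
  intro T
  induction T using Nat.strong_induction_on with
  | _ T ih =>
    intro q z st h1 h2 h3
    rcases Nat.eq_zero_or_pos T with hT | hT
    · subst hT
      left
      exact .acc q z h3
    obtain ⟨T, rfl⟩ : ∃ T', T = T' + 1 := ⟨T - 1, by omega⟩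
    have hq : ¬ P.acc q := h1 0 hT
    have hV : (q, z) ∈ V := h2 0 hT z st rfl
    have hrun : ∀ t, P.run (t + 1) (q, z :: st) = P.run t (P.step (q, z :: st)) := by
      intro t
      rw [add_comm, P.run_add, P.run_one]
    rcases hmv : P.mv q z with _ | v | ⟨q', z'⟩ | ⟨q', z'⟩
    · -- no move
      exfalso
      have e : P.step (q, z :: st) = (q, z :: st) := by simp only [PD.step, hmv]
      have e2 : ∀ t, P.run t (q, z :: st) = (q, z :: st) := by
        intro t
        induction t with
        | zero => rfl
        | succ t iht => rw [hrun, e, iht]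
      rw [e2] at h3
      exact hq h3
    · have e : P.step (q, z :: st) = (v, st) := by simp only [PD.step, hmv]
      by_cases hv : P.acc v
      · left
        have hT0 : T = 0 := by
          by_contra hne
          have := h1 1 (by omega)
          rw [hrun, e] at this
          exact this hv
        subst hT0
        exact .popAcc q z v hq hV hmv hv
      · right
        refine ⟨1, by omega, v, .pop q z v hq hV hmv hv, ?_, hv⟩
        rw [P.run_one, e]
    · have e : P.step (q, z :: st) = (q', z' :: st) := by simp only [PD.step, hmv]
      have h := ih T (by omega) q' z' st (fun t ht => by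
        have := h1 (t + 1) (by omega)
        rwa [hrun, e] at this) (fun t ht a b hab => by
        have := h2 (t + 1) (by omega) a b (by rw [hrun, e]; exact hab)
        rwa [hrun, e] at this) (by rw [hrun, e] at h3; exact h3)
      rcases h with h | ⟨m, hm, v, hev, hr, hv⟩
      · left
        exact .stay q z q' z' T none hq hV hmv h
      · right
        refine ⟨m + 1, by omega, v, .stay q z q' z' m _ hq hV hmv hev, ?_, hv⟩
        rw [hrun, e, hr]
    · have e : P.step (q, z :: st) = (q', z' :: z :: st) := by simp only [PD.step, hmv]
      have h := ih T (by omega) q' z' (z :: st) (fun t ht => by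
        have := h1 (t + 1) (by omega)
        rwa [hrun, e] at this) (fun t ht a b hab => by
        have := h2 (t + 1) (by omega) a b (by rw [hrun, e]; exact hab)
        rwa [hrun, e] at this) (by rw [hrun, e] at h3; exact h3)
      rcases h with h | ⟨m, hm, v, hev, hr, hv⟩
      · left
        exact .pushAcc q z q' z' T hq hV hmv h
      · have hr1 : P.run (m + 1) (q, z :: st) = (v, z :: st) := by rw [hrun, e, hr]
        have hr2 : ∀ t, P.run (m + 1 + t) (q, z :: st) = P.run t (v, z :: st) := by
          intro t
          rw [P.run_add, hr1]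
        have h' := ih (T - m) (by omega) v z st (fun t ht => by
          have := h1 (m + 1 + t) (by omega)
          rwa [hr2] at this) (fun t ht a b hab => by
          have := h2 (m + 1 + t) (by omega) a b (by rw [hr2]; exact hab)
          rwa [hr2] at this) (by
          have : m + 1 + (T - m) = T + 1 := by omega
          rw [← hr2, this]
          exact h3)
        rcases h' with h' | ⟨m', hm', v', hev', hr', hv'⟩
        · left
          have h4 := Ev.push q z q' z' m v (T - m) none hq hV hmv hev h'
          have : m + (T - m) + 1 = T + 1 := by omega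
          rwa [this] at h4
        · right
          refine ⟨m + m' + 1, by omega, v', .push q z q' z' m v m' _ hq hV hmv hev hev', ?_, hv'⟩
          have : m + m' + 1 = m + 1 + m' := by omega
          rw [this, hr2, hr']

/-! ### The simulation with a table -/

/-- The entries of the table: unknown, waiting for the result of the call after a push, waiting for
the final result (with the caller), known result. -/
inductive Entry (Q Z : Type)
  | none
  | w1 (p : Option (Q × Z))
  | w2 (p : Option (Q × Z))
  | done (v : Q)

/-- The states of the simulation. -/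
inductive SS (Q Z : Type)
  | halt
  | acc
  | call (c : Q × Z) (p : Option (Q × Z))
  | ret (p : Option (Q × Z)) (v : Q)

variable [DecidableEq (Q × Z)]

open Classical in
/-- One step of the simulation. -/
noncomputable def sstep (P : PD Q Z) :
    SS Q Z × (Q × Z → Entry Q Z) → SS Q Z × (Q × Z → Entry Q Z)
  | (.halt, M) => (.halt, M)
  | (.acc, M) => (.acc, M)
  | (.call c p, M) =>
    if P.acc c.1 then (.acc, M) else
    match M c with
    | .none =>
      match P.mv c.1 c.2 with
      | .fail => (.halt, M)
      | .pop v => if P.acc v then (.acc, M) else (.ret p v, Function.update M c (.done v))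
      | .stay q z => (.call (q, z) (some c), Function.update M c (.w2 p))
      | .push q z => (.call (q, z) (some c), Function.update M c (.w1 p))
    | .w1 _ => (.halt, M)
    | .w2 _ => (.halt, M)
    | .done v => (.ret p v, M)
  | (.ret none _, M) => (.halt, M)
  | (.ret (some c) v, M) =>
    match M c with
    | .none => (.halt, M)
    | .w1 p => (.call (v, c.2) (some c), Function.update M c (.w2 p))
    | .w2 p => (.ret p v, Function.update M c (.done v))
    | .done _ => (.halt, M)

/-- The state after `k` steps. -/
noncomputable def srun (P : PD Q Z) (k : ℕ) (s : SS Q Z × (Q × Z → Entry Q Z)) :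
    SS Q Z × (Q × Z → Entry Q Z) := (sstep P)^[k] s

theorem srun_add (P : PD Q Z) (s t : ℕ) (c : SS Q Z × (Q × Z → Entry Q Z)) :
    srun P (s + t) c = srun P t (srun P s c) := by
  unfold srun
  rw [add_comm, Function.iterate_add_apply]

theorem srun_one (P : PD Q Z) (c : SS Q Z × (Q × Z → Entry Q Z)) : srun P 1 c = sstep P c := rfl

theorem srun_acc (P : PD Q Z) (t : ℕ) (M : Q × Z → Entry Q Z) :
    srun P t (.acc, M) = (.acc, M) := by
  induction t with
  | zero => rfl
  | succ t ih => rw [add_comm, srun_add, srun_one]; exact ih

/-! ### Completeness and running time -/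

/-- The waiting entries. -/
def Wait (M : Q × Z → Entry Q Z) (x : Q × Z) : Prop := (∃ p, M x = .w1 p) ∨ ∃ p, M x = .w2 p

/-- All known results are right. -/
def Inv (P : PD Q Z) (M : Q × Z → Entry Q Z) : Prop :=
  ∀ x v, M x = .done v → ∃ m, Ev P Set.univ x m (some v)

/-- `M'` arises from `M` by adding results. -/
def Ext (M M' : Q × Z → Entry Q Z) : Prop :=
  ∀ x, M' x = M x ∨ (M x = .none ∧ ∃ v, M' x = .done v)

theorem Ext.refl (M : Q × Z → Entry Q Z) : Ext M M := fun _ => Or.inl rfl

theorem Ext.trans {M M' M'' : Q × Z → Entry Q Z} (h : Ext M M') (h' : Ext M' M'') :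
    Ext M M'' := by
  intro x
  rcases h x with h1 | ⟨h1, v, h2⟩
  · rcases h' x with h3 | ⟨h3, h4⟩
    · left; rw [h3, h1]
    · right; exact ⟨by rw [← h1, h3], h4⟩
  · rcases h' x with h3 | ⟨h3, h4⟩
    · right; exact ⟨h1, v, by rw [h3, h2]⟩
    · rw [h2] at h3; cases h3

open Classical in
/-- The number of unknown entries in `V`. -/
noncomputable def unk (V : Finset (Q × Z)) (M : Q × Z → Entry Q Z) : ℕ :=
  (V.filter fun x => M x = .none).card

theorem unk_update {V : Finset (Q × Z)} {M : Q × Z → Entry Q Z} {c : Q × Z} (hc : c ∈ V)
    (hM : M c = .none) {e : Entry Q Z} (he : e ≠ .none) :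
    unk V M = unk V (Function.update M c e) + 1 := by
  classical
  unfold unk
  have : (V.filter fun x => M x = .none) =
      insert c (V.filter fun x => Function.update M c e x = .none) := by
    ext x
    simp only [Finset.mem_filter, Finset.mem_insert]
    by_cases hx : x = c
    · subst hx
      simp [hM, hc]
    · rw [Function.update_of_ne hx]
      simp [hx]
  rw [this, Finset.card_insert_of_notMem]
  simp only [Finset.mem_filter, Function.update_self, not_and]
  exact fun _ => he

theorem unk_update_ne {V : Finset (Q × Z)} {M : Q × Z → Entry Q Z} {c : Q × Z}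
    (hM : M c ≠ .none) {e : Entry Q Z} (he : e ≠ .none) :
    unk V (Function.update M c e) = unk V M := by
  classical
  unfold unk
  congr 1
  ext x
  simp only [Finset.mem_filter]
  by_cases hx : x = c
  · subst hx
    simp [hM, he]
  · rw [Function.update_of_ne hx]

/-- The main lemma: correctness and running time of a call. -/
theorem call_spec (P : PD Q Z) (V : Finset (Q × Z)) {c : Q × Z} {m : ℕ} {o : Option Q}
    (h : Ev P (V : Set (Q × Z)) c m o) : ∀ (p : Option (Q × Z)) (M : Q × Z → Entry Q Z),
    Inv P M → (∀ x, Wait M x → ∀ m' o', Ev P Set.univ x m' o' → m < m') →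
    (∀ v, o = some v → ∃ k M', srun P k (.call c p, M) = (.ret p v, M') ∧ Ext M M' ∧ Inv P M' ∧
      k + 4 * unk V M' ≤ 4 * unk V M + 1) ∧
    (o = none → ∃ k M', srun P k (.call c p, M) = (.acc, M') ∧ k ≤ 4 * unk V M + 1) := by
  classical
  induction h with
  | acc q z hq =>
    intro p M _ _
    refine ⟨fun v hv => (by cases hv), fun _ => ⟨1, M, ?_, by omega⟩⟩
    rw [srun_one]
    simp only [sstep, hq, if_true]
  | popAcc q z v h1 h2 h3 h4 =>
    intro p M hI hW
    refine ⟨fun v hv => (by cases hv), fun _ => ?_⟩
    have hev : Ev P Set.univ (q, z) 1 none := Ev.popAcc q z v h1 trivial h3 h4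
    rcases hMc : M (q, z) with _ | p' | p' | v'
    · refine ⟨1, M, ?_, by omega⟩
      rw [srun_one]
      simp only [sstep, h1, if_false, hMc, h3, h4, if_true]
    · exact absurd (hW _ (Or.inl ⟨_, hMc⟩) _ _ hev) (lt_irrefl _)
    · exact absurd (hW _ (Or.inr ⟨_, hMc⟩) _ _ hev) (lt_irrefl _)
    · obtain ⟨m', h⟩ := hI _ _ hMc
      have := (h.det hev).2
      cases this
  | pop q z v h1 h2 h3 h4 =>
    intro p M hI hW
    refine ⟨fun v' hv => ?_, fun h => by cases h⟩
    cases hv
    have hev : Ev P Set.univ (q, z) 1 (some v) := Ev.pop q z v h1 trivial h3 h4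
    rcases hMc : M (q, z) with _ | p' | p' | v'
    · refine ⟨1, Function.update M (q, z) (.done v), ?_, ?_, ?_, ?_⟩
      · rw [srun_one]
        simp only [sstep, h1, if_false, hMc, h3, h4]
      · intro x
        by_cases hx : x = (q, z)
        · subst hx
          right
          exact ⟨hMc, v, Function.update_self _ _ _⟩
        · left
          rw [Function.update_of_ne hx]
      · intro x w hw
        by_cases hx : x = (q, z)
        · subst hx
          rw [Function.update_self] at hw
          cases hw
          exact ⟨1, hev⟩
        · rw [Function.update_of_ne hx] at hw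
          exact hI x w hw
      · have := unk_update (V := V) h2 hMc (e := .done v) (by simp)
        omega
    · exact absurd (hW _ (Or.inl ⟨_, hMc⟩) _ _ hev) (lt_irrefl _)
    · exact absurd (hW _ (Or.inr ⟨_, hMc⟩) _ _ hev) (lt_irrefl _)
    · obtain ⟨m', h⟩ := hI _ _ hMc
      have := (h.det hev).2
      cases this
      refine ⟨1, M, ?_, Ext.refl _, hI, by omega⟩
      rw [srun_one]
      simp only [sstep, h1, if_false, hMc]
  | stay q z q' z' m o h1 h2 h3 h4 ih =>
    intro p M hI hW
    have hev : Ev P Set.univ (q, z) (m + 1) o :=
      Ev.stay q z q' z' m o h1 trivial h3 (h4.mono (Set.subset_univ _))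
    rcases hMc : M (q, z) with _ | p' | p' | v'
    · set M1 := Function.update M (q, z) (Entry.w2 p) with hM1
      have hI1 : Inv P M1 := by
        intro x w hw
        by_cases hx : x = (q, z)
        · subst hx
          rw [hM1, Function.update_self] at hw
          cases hw
        · rw [hM1, Function.update_of_ne hx] at hw
          exact hI x w hw
      have hW1 : ∀ x, Wait M1 x → ∀ m' o', Ev P Set.univ x m' o' → m < m' := by
        intro x hx m' o' he
        by_cases hxc : x = (q, z)
        · subst hxc
          have := (he.det hev).1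
          omega
        · have hx' : Wait M x := by
            unfold Wait at hx ⊢
            rwa [hM1, Function.update_of_ne hxc] at hx
          have := hW x hx' m' o' he
          omega
      have hstep : srun P 1 (.call (q, z) p, M) = (.call (q', z') (some (q, z)), M1) := by
        rw [srun_one]
        simp only [sstep, h1, if_false, hMc, h3, hM1]
      have hu := unk_update (V := V) h2 hMc (e := .w2 p) (by simp)
      rw [← hM1] at hu
      obtain ⟨ih1, ih2⟩ := ih (some (q, z)) M1 hI1 hW1
      constructor
      · intro v hv
        obtain ⟨k, M2, hk, hext, hI2, hb⟩ := ih1 v hv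
        have hM2 : M2 (q, z) = .w2 p := by
          rcases hext (q, z) with h | ⟨h, _⟩
          · rw [h, hM1, Function.update_self]
          · rw [hM1, Function.update_self] at h
            cases h
        refine ⟨1 + k + 1, Function.update M2 (q, z) (.done v), ?_, ?_, ?_, ?_⟩
        · rw [srun_add, srun_add, hstep, hk, srun_one]
          simp only [sstep, hM2]
        · intro x
          by_cases hx : x = (q, z)
          · subst hx
            right
            exact ⟨hMc, v, Function.update_self _ _ _⟩
          · rw [Function.update_of_ne hx]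
            rcases hext x with h | ⟨h, h'⟩
            · left
              rw [h, hM1, Function.update_of_ne hx]
            · right
              rw [hM1, Function.update_of_ne hx] at h
              exact ⟨h, h'⟩
        · intro x w hw
          by_cases hx : x = (q, z)
          · subst hx
            rw [Function.update_self] at hw
            cases hw
            subst hv
            exact ⟨_, hev⟩
          · rw [Function.update_of_ne hx] at hw
            exact hI2 x w hw
        · have hu2 := unk_update_ne (V := V) (M := M2) (c := (q, z)) (by rw [hM2]; simp)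
            (e := .done v) (by simp)
          omega
      · intro ho
        obtain ⟨k, M2, hk, hb⟩ := ih2 ho
        refine ⟨1 + k, M2, ?_, ?_⟩
        · rw [srun_add, hstep, hk]
        · omega
    · exact absurd (hW _ (Or.inl ⟨_, hMc⟩) _ _ hev) (lt_irrefl _)
    · exact absurd (hW _ (Or.inr ⟨_, hMc⟩) _ _ hev) (lt_irrefl _)
    · obtain ⟨m', h⟩ := hI _ _ hMc
      have ho := (h.det hev).2
      subst ho
      refine ⟨fun v hv => ?_, fun h => by cases h⟩
      cases hv
      refine ⟨1, M, ?_, Ext.refl _, hI, by omega⟩
      rw [srun_one]
      simp only [sstep, h1, if_false, hMc]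
  | pushAcc q z q' z' m h1 h2 h3 h4 ih =>
    intro p M hI hW
    refine ⟨fun v hv => (by cases hv), fun _ => ?_⟩
    have hev : Ev P Set.univ (q, z) (m + 1) none :=
      Ev.pushAcc q z q' z' m h1 trivial h3 (h4.mono (Set.subset_univ _))
    rcases hMc : M (q, z) with _ | p' | p' | v'
    · set M1 := Function.update M (q, z) (Entry.w1 p) with hM1
      have hI1 : Inv P M1 := by
        intro x w hw
        by_cases hx : x = (q, z)
        · subst hx
          rw [hM1, Function.update_self] at hw
          cases hw
        · rw [hM1, Function.update_of_ne hx] at hw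
          exact hI x w hw
      have hW1 : ∀ x, Wait M1 x → ∀ m' o', Ev P Set.univ x m' o' → m < m' := by
        intro x hx m' o' he
        by_cases hxc : x = (q, z)
        · subst hxc
          have := (he.det hev).1
          omega
        · have hx' : Wait M x := by
            unfold Wait at hx ⊢
            rwa [hM1, Function.update_of_ne hxc] at hx
          have := hW x hx' m' o' he
          omega
      have hstep : srun P 1 (.call (q, z) p, M) = (.call (q', z') (some (q, z)), M1) := by
        rw [srun_one]
        simp only [sstep, h1, if_false, hMc, h3, hM1]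
      have hu := unk_update (V := V) h2 hMc (e := .w1 p) (by simp)
      rw [← hM1] at hu
      obtain ⟨ih1, ih2⟩ := ih (some (q, z)) M1 hI1 hW1
      obtain ⟨k, M2, hk, hb⟩ := ih2 rfl
      refine ⟨1 + k, M2, ?_, ?_⟩
      · rw [srun_add, hstep, hk]
      · omega
    · exact absurd (hW _ (Or.inl ⟨_, hMc⟩) _ _ hev) (lt_irrefl _)
    · exact absurd (hW _ (Or.inr ⟨_, hMc⟩) _ _ hev) (lt_irrefl _)
    · obtain ⟨m', h⟩ := hI _ _ hMc
      have ho := (h.det hev).2
      cases ho
  | push q z q' z' m v m1 o h1 h2 h3 h4 h5 ih1 ih2 =>
    intro p M hI hW
    have hev : Ev P Set.univ (q, z) (m + m1 + 1) o :=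
      Ev.push q z q' z' m v m1 o h1 trivial h3 (h4.mono (Set.subset_univ _))
        (h5.mono (Set.subset_univ _))
    rcases hMc : M (q, z) with _ | p' | p' | v'
    · set M1 := Function.update M (q, z) (Entry.w1 p) with hM1
      have hI1 : Inv P M1 := by
        intro x w hw
        by_cases hx : x = (q, z)
        · subst hx
          rw [hM1, Function.update_self] at hw
          cases hw
        · rw [hM1, Function.update_of_ne hx] at hw
          exact hI x w hw
      have hW1 : ∀ x, Wait M1 x → ∀ m' o', Ev P Set.univ x m' o' → m < m' := by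
        intro x hx m' o' he
        by_cases hxc : x = (q, z)
        · subst hxc
          have := (he.det hev).1
          omega
        · have hx' : Wait M x := by
            unfold Wait at hx ⊢
            rwa [hM1, Function.update_of_ne hxc] at hx
          have := hW x hx' m' o' he
          omega
      have hstep : srun P 1 (.call (q, z) p, M) = (.call (q', z') (some (q, z)), M1) := by
        rw [srun_one]
        simp only [sstep, h1, if_false, hMc, h3, hM1]
      have hu := unk_update (V := V) h2 hMc (e := .w1 p) (by simp)
      rw [← hM1] at hu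
      obtain ⟨k, M2, hk, hext, hI2, hb⟩ := (ih1 (some (q, z)) M1 hI1 hW1).1 v rfl
      have hM2 : M2 (q, z) = .w1 p := by
        rcases hext (q, z) with h | ⟨h, _⟩
        · rw [h, hM1, Function.update_self]
        · rw [hM1, Function.update_self] at h
          cases h
      set M3 := Function.update M2 (q, z) (Entry.w2 p) with hM3
      have hstep2 : srun P 1 (.ret (some (q, z)) v, M2) = (.call (v, z) (some (q, z)), M3) := by
        rw [srun_one]
        simp only [sstep, hM2, hM3]
      have hI3 : Inv P M3 := by
        intro x w hw
        by_cases hx : x = (q, z)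
        · subst hx
          rw [hM3, Function.update_self] at hw
          cases hw
        · rw [hM3, Function.update_of_ne hx] at hw
          exact hI2 x w hw
      have hW3 : ∀ x, Wait M3 x → ∀ m' o', Ev P Set.univ x m' o' → m1 < m' := by
        intro x hx m' o' he
        by_cases hxc : x = (q, z)
        · subst hxc
          have := (he.det hev).1
          omega
        · have hx' : Wait M x := by
            unfold Wait at hx ⊢
            rw [hM3, Function.update_of_ne hxc] at hx
            rcases hext x with h | ⟨h, w, h'⟩
            · rwa [h, hM1, Function.update_of_ne hxc] at hx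
            · rw [h'] at hx
              rcases hx with ⟨_, hx⟩ | ⟨_, hx⟩ <;> cases hx
          have := hW x hx' m' o' he
          omega
      have hu3 := unk_update_ne (V := V) (M := M2) (c := (q, z)) (by rw [hM2]; simp)
        (e := Entry.w2 p) (by simp)
      rw [← hM3] at hu3
      obtain ⟨ih3, ih4⟩ := ih2 (some (q, z)) M3 hI3 hW3
      constructor
      · intro v' hv'
        obtain ⟨k', M4, hk', hext', hI4, hb'⟩ := ih3 v' hv'
        have hM4 : M4 (q, z) = .w2 p := by
          rcases hext' (q, z) with h | ⟨h, _⟩
          · rw [h, hM3, Function.update_self]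
          · rw [hM3, Function.update_self] at h
            cases h
        refine ⟨1 + k + 1 + k' + 1, Function.update M4 (q, z) (.done v'), ?_, ?_, ?_, ?_⟩
        · rw [srun_add, srun_add, srun_add, srun_add, hstep, hk, hstep2, hk', srun_one]
          simp only [sstep, hM4]
        · intro x
          by_cases hx : x = (q, z)
          · subst hx
            right
            exact ⟨hMc, v', Function.update_self _ _ _⟩
          · rw [Function.update_of_ne hx]
            have a1 : Ext M1 M2 := hext
            have a2 : Ext M3 M4 := hext'
            rcases a2 x with h | ⟨h, h'⟩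
            · rw [hM3, Function.update_of_ne hx] at h
              rw [h]
              rcases a1 x with h | ⟨h, h'⟩
              · left
                rw [h, hM1, Function.update_of_ne hx]
              · right
                rw [hM1, Function.update_of_ne hx] at h
                exact ⟨h, h'⟩
            · rw [hM3, Function.update_of_ne hx] at h
              right
              refine ⟨?_, h'⟩
              rcases a1 x with h2 | ⟨h2, w, h3⟩
              · rw [h, hM1, Function.update_of_ne hx] at h2
                exact h2.symm
              · rw [h] at h3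
                cases h3
        · intro x w hw
          by_cases hx : x = (q, z)
          · subst hx
            rw [Function.update_self] at hw
            cases hw
            subst hv'
            exact ⟨_, hev⟩
          · rw [Function.update_of_ne hx] at hw
            exact hI4 x w hw
        · have hu4 := unk_update_ne (V := V) (M := M4) (c := (q, z)) (by rw [hM4]; simp)
            (e := Entry.done v') (by simp)
          omega
      · intro ho
        obtain ⟨k', M4, hk', hb'⟩ := ih4 ho
        refine ⟨1 + k + 1 + k', M4, ?_, ?_⟩
        · rw [srun_add, srun_add, srun_add, hstep, hk, hstep2, hk']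
        · omega
    · exact absurd (hW _ (Or.inl ⟨_, hMc⟩) _ _ hev) (lt_irrefl _)
    · exact absurd (hW _ (Or.inr ⟨_, hMc⟩) _ _ hev) (lt_irrefl _)
    · obtain ⟨m', h⟩ := hI _ _ hMc
      have ho := (h.det hev).2
      subst ho
      refine ⟨fun v hv => ?_, fun h => by cases h⟩
      cases hv
      refine ⟨1, M, ?_, Ext.refl _, hI, by omega⟩
      rw [srun_one]
      simp only [sstep, h1, if_false, hMc]

/-- Completeness of the simulation, with its running time. -/
theorem complete (P : PD Q Z) (V : Finset (Q × Z)) (q : Q) (z : Z) (T : ℕ)
    (h1 : ∀ t < T, ¬ P.acc (P.run t (q, [z])).1)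
    (h2 : ∀ t < T, ∀ z' st', (P.run t (q, [z])).2 = z' :: st' → ((P.run t (q, [z])).1, z') ∈ V)
    (h3 : P.acc (P.run T (q, [z])).1) :
    ∃ k M, srun P k (.call (q, z) none, fun _ => .none) = (.acc, M) ∧ k ≤ 4 * V.card + 1 := by
  classical
  have hu : unk V (fun _ => Entry.none) ≤ V.card := Finset.card_filter_le _ _
  rcases exists_ev P (V : Set (Q × Z)) T q z [] h1 h2 h3 with h | ⟨m, hm, v, hev, hr, hv⟩
  · obtain ⟨k, M', hk, hb⟩ := (call_spec P V h none (fun _ => .none) (fun x v h => by cases h)
      (fun x hx => by rcases hx with ⟨_, hx⟩ | ⟨_, hx⟩ <;> cases hx)).2 rfl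
    exact ⟨k, M', hk, by omega⟩
  · exfalso
    obtain ⟨t, rfl⟩ : ∃ t, T = m + t := ⟨T - m, by omega⟩
    rw [P.run_add, hr, P.run_nil] at h3
    exact hv h3

/-! ### Soundness -/

/-- The chain of the callers: `Chain P M p c st l` means that `p` is the caller of `c`, the stack
below the top is `st`, and `l` is the list of the waiting surface configurations. -/
inductive Chain (P : PD Q Z) (M : Q × Z → Entry Q Z) :
    Option (Q × Z) → Q × Z → List Z → List (Q × Z) → Prop
  | nil (c : Q × Z) : Chain P M none c [] []
  | tail (x c : Q × Z) (pp : Option (Q × Z)) (st : List Z) (l : List (Q × Z)) :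
      M x = .w2 pp → x ∉ l → (∀ m o, Ev P Set.univ c m o → ∃ m', Ev P Set.univ x m' o) →
      Chain P M pp x st l → Chain P M (some x) c st (x :: l)
  | call (x c : Q × Z) (pp : Option (Q × Z)) (st : List Z) (l : List (Q × Z)) :
      M x = .w1 pp → x ∉ l → ¬ P.acc x.1 → P.mv x.1 x.2 = .push c.1 c.2 →
      Chain P M pp x st l → Chain P M (some x) c (x.2 :: st) (x :: l)

theorem Chain.congr {P : PD Q Z} {M M' : Q × Z → Entry Q Z} {p : Option (Q × Z)} {c : Q × Z}
    {st : List Z} {l : List (Q × Z)} (h : Chain P M p c st l) (hM : ∀ x ∈ l, M' x = M x) :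
    Chain P M' p c st l := by
  induction h with
  | nil c => exact .nil c
  | tail x c pp st l h1 h2 h3 _ ih =>
    exact .tail x c pp st l (by rw [hM x (by simp), h1]) h2 h3
      (ih fun y hy => hM y (by simp [hy]))
  | call x c pp st l h1 h2 h3 h4 _ ih =>
    exact .call x c pp st l (by rw [hM x (by simp), h1]) h2 h3 h4
      (ih fun y hy => hM y (by simp [hy]))

theorem Chain.wait {P : PD Q Z} {M : Q × Z → Entry Q Z} {p : Option (Q × Z)} {c : Q × Z}
    {st : List Z} {l : List (Q × Z)} (h : Chain P M p c st l) : ∀ x ∈ l, Wait M x := by
  induction h with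
  | nil c => intro x hx; cases hx
  | tail x c pp st l h1 h2 h3 _ ih =>
    intro y hy
    rcases List.mem_cons.1 hy with rfl | hy
    · exact Or.inr ⟨_, h1⟩
    · exact ih y hy
  | call x c pp st l h1 h2 h3 h4 _ ih =>
    intro y hy
    rcases List.mem_cons.1 hy with rfl | hy
    · exact Or.inl ⟨_, h1⟩
    · exact ih y hy

/-- The invariant of the simulation, for the start configuration `c₀`. -/
def SInv (P : PD Q Z) (c₀ : Q × List Z) : SS Q Z × (Q × Z → Entry Q Z) → Prop
  | (.halt, _) => True
  | (.acc, _) => ∃ t, P.acc (P.run t c₀).1
  | (.call c p, M) => Inv P M ∧ ∃ st l, Chain P M p c st l ∧ ∃ t, P.run t c₀ = (c.1, c.2 :: st)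
  | (.ret p v, M) => Inv P M ∧ ∃ st l c m, Chain P M p c st l ∧ Ev P Set.univ c m (some v) ∧
      ∃ t, P.run t c₀ = (v, st)

theorem SInv.step {P : PD Q Z} {c₀ : Q × List Z} : ∀ {s : SS Q Z × (Q × Z → Entry Q Z)},
    SInv P c₀ s → SInv P c₀ (sstep P s) := by
  classical
  rintro ⟨s, M⟩ h
  rcases s with _ | _ | ⟨c, p⟩ | ⟨p, v⟩
  · trivial
  · exact h
  · obtain ⟨hI, st, l, hC, t, ht⟩ := h
    by_cases hacc : P.acc c.1
    · have e : sstep P (.call c p, M) = (.acc, M) := by simp only [sstep, hacc, if_true]
      rw [e]
      exact ⟨t, by rw [ht]; exact hacc⟩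
    · rcases hMc : M c with _ | p' | p' | v
      · rcases hmv : P.mv c.1 c.2 with _ | v | ⟨q', z'⟩ | ⟨q', z'⟩
        · have e : sstep P (.call c p, M) = (.halt, M) := by
            simp only [sstep, hacc, if_false, hMc, hmv]
          rw [e]
          trivial
        · have hstep : P.run (t + 1) c₀ = (v, st) := by
            rw [P.run_add, ht, P.run_one]
            simp only [PD.step, hmv]
          by_cases hv : P.acc v
          · have e : sstep P (.call c p, M) = (.acc, M) := by
              simp only [sstep, hacc, if_false, hMc, hmv, hv, if_true]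
            rw [e]
            exact ⟨t + 1, by rw [hstep]; exact hv⟩
          · have e : sstep P (.call c p, M) = (.ret p v, Function.update M c (.done v)) := by
              simp only [sstep, hacc, if_false, hMc, hmv, hv]
            rw [e]
            have hev : Ev P Set.univ c 1 (some v) := Ev.pop c.1 c.2 v hacc trivial hmv hv
            refine ⟨?_, st, l, c, 1, ?_, hev, t + 1, hstep⟩
            · intro x w hw
              by_cases hx : x = c
              · subst hx
                rw [Function.update_self] at hw
                cases hw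
                exact ⟨1, hev⟩
              · rw [Function.update_of_ne hx] at hw
                exact hI x w hw
            · refine hC.congr fun x hx => ?_
              have : x ≠ c := by
                rintro rfl
                rcases hC.wait x hx with ⟨_, h⟩ | ⟨_, h⟩ <;> rw [hMc] at h <;> cases h
              rw [Function.update_of_ne this]
        · have e : sstep P (.call c p, M) =
              (.call (q', z') (some c), Function.update M c (.w2 p)) := by
            simp only [sstep, hacc, if_false, hMc, hmv]
          rw [e]
          have hcl : c ∉ l := by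
            intro hx
            rcases hC.wait c hx with ⟨_, h⟩ | ⟨_, h⟩ <;> rw [hMc] at h <;> cases h
          refine ⟨?_, st, c :: l, ?_, t + 1, ?_⟩
          · intro x w hw
            by_cases hx : x = c
            · subst hx
              rw [Function.update_self] at hw
              cases hw
            · rw [Function.update_of_ne hx] at hw
              exact hI x w hw
          · refine .tail c (q', z') p st l (Function.update_self _ _ _) hcl ?_ ?_
            · intro m o hev
              exact ⟨m + 1, Ev.stay c.1 c.2 q' z' m o hacc trivial hmv hev⟩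
            · refine hC.congr fun x hx => ?_
              rw [Function.update_of_ne]
              rintro rfl
              exact hcl hx
          · rw [P.run_add, ht, P.run_one]
            simp only [PD.step, hmv]
        · have e : sstep P (.call c p, M) =
              (.call (q', z') (some c), Function.update M c (.w1 p)) := by
            simp only [sstep, hacc, if_false, hMc, hmv]
          rw [e]
          have hcl : c ∉ l := by
            intro hx
            rcases hC.wait c hx with ⟨_, h⟩ | ⟨_, h⟩ <;> rw [hMc] at h <;> cases h
          refine ⟨?_, c.2 :: st, c :: l, ?_, t + 1, ?_⟩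
          · intro x w hw
            by_cases hx : x = c
            · subst hx
              rw [Function.update_self] at hw
              cases hw
            · rw [Function.update_of_ne hx] at hw
              exact hI x w hw
          · refine .call c (q', z') p st l (Function.update_self _ _ _) hcl hacc hmv ?_
            refine hC.congr fun x hx => ?_
            rw [Function.update_of_ne]
            rintro rfl
            exact hcl hx
          · rw [P.run_add, ht, P.run_one]
            simp only [PD.step, hmv]
      · have e : sstep P (.call c p, M) = (.halt, M) := by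
          simp only [sstep, hacc, if_false, hMc]
        rw [e]
        trivial
      · have e : sstep P (.call c p, M) = (.halt, M) := by
          simp only [sstep, hacc, if_false, hMc]
        rw [e]
        trivial
      · have e : sstep P (.call c p, M) = (.ret p v, M) := by
          simp only [sstep, hacc, if_false, hMc]
        rw [e]
        obtain ⟨m, hev⟩ := hI c v hMc
        refine ⟨hI, st, l, c, m, hC, hev, t + m, ?_⟩
        rw [P.run_add, ht]
        exact hev.run_some v rfl st
  · obtain ⟨hI, st, l, c, m, hC, hev, t, ht⟩ := h
    cases hC with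
    | nil => trivial
    | tail x _ pp _ l h1 h2 h3 h4 =>
      have e : sstep P (.ret (some x) v, M) = (.ret pp v, Function.update M x (.done v)) := by
        simp only [sstep, h1]
      rw [e]
      obtain ⟨m', hev'⟩ := h3 m _ hev
      refine ⟨?_, st, l, x, m', ?_, hev', t, ht⟩
      · intro y w hw
        by_cases hx : y = x
        · subst hx
          rw [Function.update_self] at hw
          cases hw
          exact ⟨m', hev'⟩
        · rw [Function.update_of_ne hx] at hw
          exact hI y w hw
      · refine h4.congr fun y hy => ?_
        rw [Function.update_of_ne]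
        rintro rfl
        exact h2 hy
    | call x _ pp st' l h1 h2 h3 h4 h5 =>
      have e : sstep P (.ret (some x) v, M) =
          (.call (v, x.2) (some x), Function.update M x (.w2 pp)) := by
        simp only [sstep, h1]
      rw [e]
      refine ⟨?_, st', x :: l, ?_, t, ht⟩
      · intro y w hw
        by_cases hx : y = x
        · subst hx
          rw [Function.update_self] at hw
          cases hw
        · rw [Function.update_of_ne hx] at hw
          exact hI y w hw
      · refine .tail x (v, x.2) pp st' l (Function.update_self _ _ _) h2 ?_ ?_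
        · intro m' o' hev'
          exact ⟨m + m' + 1, Ev.push x.1 x.2 c.1 c.2 m v m' o' h3 trivial h4 hev hev'⟩
        · refine h5.congr fun y hy => ?_
          rw [Function.update_of_ne]
          rintro rfl
          exact h2 hy

/-- Soundness of the simulation. -/
theorem sound (P : PD Q Z) (q : Q) (z : Z) (k : ℕ) (M : Q × Z → Entry Q Z)
    (h : srun P k (.call (q, z) none, fun _ => .none) = (.acc, M)) :
    ∃ t, P.acc (P.run t (q, [z])).1 := by
  have h1 : ∀ k, SInv P (q, [z]) (srun P k (.call (q, z) none, fun _ => .none)) := by
    intro k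
    induction k with
    | zero =>
      refine ⟨fun x v h => (by cases h), [], [], .nil _, 0, rfl⟩
    | succ k ih =>
      rw [srun_add, srun_one]
      exact ih.step
  have h2 := h1 k
  rw [h] at h2
  exact h2

end Pool.Agent.Helper20.APD
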