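import Pool.Agent.Helper28.Ram.Defs

set_option autoImplicit false

/-!
# Auxiliary pushdown machines: definitions
-/

namespace Pool.Agent.Helper20.APD

open Pool.Agent.Helper65.LinSpace Pool.Agent.Helper78.Mpc Pool.Agent.Helper28.Ram

/-- A deterministic auxiliary pushdown machine. Its state is a word (which contains the positions of
the input heads and the contents of the auxiliary work tapes), and the symbols on the pushdown store
are words. In the state `q` with the symbol `z` on the top of the store it reads the letters of the
input word and of the guessed word at the position with the binary digits `addr q`; let `l` be the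
word `read a b`, where `a` and `b` are these letters (`none` at positions outside of the words). Its
new state is `next (⟨q⟩ ⟨z⟩ l)`, and `act (⟨q⟩ ⟨z⟩ l)` says what happens with the store: nothing is
left of the top symbol if this is the empty word, the top symbol is replaced by `z'` if this is
`0 z'`, and the symbol `z'` is put on the top of the store if this is `1 z'`. Here `⟨q⟩` is the
self-delimiting code of `q`. The functions `addr`, `next` and `act` are computed in linear space. -/
structure PDM where
  start : List Bool
  bottom : List Bool
  read : Option Bool → Option Bool → List Bool
  addr : List Bool → List Bool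
  next : List Bool → List Bool
  act : List Bool → List Bool
  addr_lin : LinComp addr
  next_lin : LinComp next
  act_lin : LinComp act

/-- The argument of `next` and `act`. -/
def PDM.arg (A : PDM) (w y q z : List Bool) : List Bool :=
  sd q ++ (sd z ++ A.read w[bval (A.addr q)]? y[bval (A.addr q)]?)

/-- The new store, for the action `u`, the top symbol `z` and the store `st` below it. -/
def store : List Bool → List Bool → List (List Bool) → List (List Bool)
  | [], _, st => st
  | false :: z', _, st => z' :: st
  | true :: z', z, st => z' :: z :: st

/-- One step, on the input word `w` and the guessed word `y`. The machine stops when the store is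
empty. -/
def PDM.step (A : PDM) (w y : List Bool) : List Bool × List (List Bool) →
    List Bool × List (List Bool)
  | (q, []) => (q, [])
  | (q, z :: st) => (A.next (A.arg w y q z), store (A.act (A.arg w y q z)) z st)

/-- The state and the store (its top first) after `t` steps on the input word `w` and the guessed
word `y`. -/
def PDM.conf (A : PDM) (w y : List Bool) : ℕ → List Bool × List (List Bool)
  | 0 => (A.start, [A.bottom])
  | t + 1 => A.step w y (A.conf w y t)

/-- Up to the time `t`, the state, the address and all words on the store have length at most
`s`. -/
def PDM.Fits (A : PDM) (w y : List Bool) (t s : ℕ) : Prop :=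
  ∀ τ ≤ t, (A.conf w y τ).1.length ≤ s ∧ (A.addr (A.conf w y τ).1).length ≤ s ∧
    ∀ z ∈ (A.conf w y τ).2, z.length ≤ s

/-- The surface configurations (state and top symbol of the store) before the time `t`. -/
def PDM.surf (A : PDM) (w y : List Bool) (t : ℕ) : Set (List Bool × List Bool) :=
  {x | ∃ τ < t, ∃ st, A.conf w y τ = (x.1, x.2 :: st)}

/-- The first letter of the state after `t` steps is `1`. -/
def PDM.AcceptsAt (A : PDM) (w y : List Bool) (t : ℕ) : Prop :=
  (A.conf w y t).1.head? = some true

/-- `A` accepts the language `L` with at most `g n` guessed bits, with words of length at most `Q n`
and with a product of the number of surface configurations and of the length of the words of at most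
`P n`, `n` being the length of the input word `w`: `w` is in `L` if and only if for some guess `y` the
machine accepts at some time, and for `w` in `L` this happens within the stated bounds for some
`y`. There is no bound on the time. -/
def PDM.Accepts (A : PDM) (L : Set (List Bool)) (g P Q : ℕ → ℝ) : Prop :=
  (∀ w y t, A.AcceptsAt w y t → w ∈ L) ∧
  ∀ w ∈ L, ∃ (y : List Bool) (t s : ℕ), (y.length : ℝ) ≤ g w.length ∧
    ((A.surf w y t).ncard : ℝ) * s ≤ P w.length ∧ (s : ℝ) ≤ Q w.length ∧ A.Fits w y t s ∧
    A.AcceptsAt w y t

end Pool.Agent.Helper20.APD
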