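import Pool.Agent.Helper20.APD.Mach
import Pool.Agent.Helper20.APD.Defs
import Pool.Agent.Helper11.Ram.MCOR

set_option autoImplicit false

/-!
# A pushdown machine on words and its machine on numbers
-/

namespace Pool.Agent.Helper20.APD

open Pool.Agent.Helper65.LinSpace Pool.Agent.Helper78.Mpc Pool.Agent.Helper28.Ram
  Pool.Agent.Helper11.Ram

/-- The number of the address. -/
def awN (eA T Λ β C q : ℕ) : ℕ := capN T (fnN eA T Λ β C q)

/-- The argument of the functions. -/
def argN (ini B0 q z l : ℕ) : ℕ := catN (sdN q) (catN (sdN z) (dig B0 ini l))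

/-- The value of a function. -/
def valN (e ini B0 T Λ β C q z l : ℕ) : ℕ := capN T (fnN e T Λ β C (argN ini B0 q z l))

/-- The functions on numbers of a pushdown machine with the codes `eA`, `eN`, `eO`. -/
def nf (eA eN eO ini B0 T Λ β C : ℕ) : NF where
  ad q := awN eA T Λ β C q - 2 ^ Nat.log 2 (awN eA T Λ β C q)
  kd q z l := ifz (awN eA T Λ β C q * (valN eN ini B0 T Λ β C q z l *
    valN eO ini B0 T Λ β C q z l)) 0
    (ifz (valN eO ini B0 T Λ β C q z l - 1) 1 (2 + valN eO ini B0 T Λ β C q z l % 2))
  nq q z l := valN eN ini B0 T Λ β C q z l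
  nz q z l := valN eO ini B0 T Λ β C q z l / 2

theorem nf_ok (eA eN eO ini B0 T Λ β C : ℕ) :
    (nf eA eN eO ini B0 T Λ β C).Ok (2 ^ (T + 1)) := by
  refine ⟨fun q => ?_, fun q z l h => ?_, fun q z l h => ?_⟩
  · exact lt_of_le_of_lt (Nat.sub_le _ _) (capN_lt _ _)
  · have h1 : awN eA T Λ β C q * (valN eN ini B0 T Λ β C q z l *
        valN eO ini B0 T Λ β C q z l) ≠ 0 := by
      intro h0
      exact h (by show ifz _ _ _ = 0; rw [h0, ifz_zero])
    have h2 : valN eN ini B0 T Λ β C q z l ≠ 0 :=
      left_ne_zero_of_mul (right_ne_zero_of_mul h1)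
    exact ⟨Nat.pos_of_ne_zero h2, capN_lt _ _⟩
  · have h1 : awN eA T Λ β C q * (valN eN ini B0 T Λ β C q z l *
        valN eO ini B0 T Λ β C q z l) ≠ 0 := by
      intro h0
      have : (nf eA eN eO ini B0 T Λ β C).kd q z l = 0 := by
        show ifz _ _ _ = 0
        rw [h0, ifz_zero]
      omega
    have h2 : valN eO ini B0 T Λ β C q z l - 1 ≠ 0 := by
      intro h0
      have : (nf eA eN eO ini B0 T Λ β C).kd q z l = 1 := by
        show ifz _ _ _ = 1
        rw [ifz_ne h1, h0, ifz_zero]
      omega
    have h3 : valN eO ini B0 T Λ β C q z l < 2 ^ (T + 1) := capN_lt _ _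
    show 0 < valN eO ini B0 T Λ β C q z l / 2 ∧ valN eO ini B0 T Λ β C q z l / 2 < 2 ^ (T + 1)
    omega

/-- The pushdown machine on words, as an abstract machine. -/
def pdL (A : PDM) (w y : List Bool) : PD (List Bool) (List Bool) where
  mv q z :=
    match A.act (A.arg w y q z) with
    | [] => .pop (A.next (A.arg w y q z))
    | false :: z' => .stay (A.next (A.arg w y q z)) z'
    | true :: z' => .push (A.next (A.arg w y q z)) z'
  acc q := q.head? = some true

theorem letN_lt (x i : ℕ) : letN x i < 3 := by
  unfold letN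
  have h := dig_lt (q := 2) (by norm_num) x i
  rcases Nat.eq_zero_or_pos (lt01 i (Nat.log 2 x)) with h0 | h0
  · rw [h0, ifz_zero]
    omega
  · rw [ifz_ne h0.ne']
    omega

/-- The codes of the letters. -/
def lcN (x y i : ℕ) : ℕ := 3 * letN x i + letN y i

theorem lcN_lt (x y i : ℕ) : lcN x y i < 9 := by
  have h1 := letN_lt x i
  have h2 := letN_lt y i
  unfold lcN
  omega

section

variable {A : PDM} {eA eN eO ini B0 T Λ β C R : ℕ} {w y : List Bool}

/-- The numbers of address, new state and action, if the words are short. -/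
theorem vals (hA : Good A.addr eA T Λ β C (4 * T + 2 + R))
    (hN : Good A.next eN T Λ β C (4 * T + 2 + R)) (hO : Good A.act eO T Λ β C (4 * T + 2 + R))
    (hini : ∀ a b, dig B0 ini (3 * codeO a + codeO b) = num (A.read a b))
    (hR : ∀ a b, (A.read a b).length ≤ R) {q z : List Bool} (hq : q.length ≤ T)
    (hz : z.length ≤ T) :
    awN eA T Λ β C (num q) = (if (A.addr q).length ≤ T then num (A.addr q) else 0) ∧
    ((A.addr q).length ≤ T →
      valN eN ini B0 T Λ β C (num q) (num z)
        (lcN (num w) (num y) ((nf eA eN eO ini B0 T Λ β C).ad (num q))) =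
        (if (A.next (A.arg w y q z)).length ≤ T then num (A.next (A.arg w y q z)) else 0) ∧
      valN eO ini B0 T Λ β C (num q) (num z)
        (lcN (num w) (num y) ((nf eA eN eO ini B0 T Λ β C).ad (num q))) =
        (if (A.act (A.arg w y q z)).length ≤ T then num (A.act (A.arg w y q z)) else 0)) := by
  have h1 : awN eA T Λ β C (num q) = (if (A.addr q).length ≤ T then num (A.addr q) else 0) := by
    unfold awN
    rw [hA q (by omega)]
    split_ifs with h
    · exact capN_num h
    · exact capN_zero _
  refine ⟨h1, fun haw => ?_⟩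
  rw [if_pos haw] at h1
  have had : (nf eA eN eO ini B0 T Λ β C).ad (num q) = bval (A.addr q) := by
    have e : (nf eA eN eO ini B0 T Λ β C).ad (num q) =
      awN eA T Λ β C (num q) - 2 ^ Nat.log 2 (awN eA T Λ β C (num q)) := rfl
    rw [e, h1, Pool.Agent.Helper65.LinSpace.log_num, num_eq_bval]
    omega
  have hlc : dig B0 ini (lcN (num w) (num y) (bval (A.addr q))) =
      num (A.read w[bval (A.addr q)]? y[bval (A.addr q)]?) := by
    unfold lcN
    rw [letN_num, letN_num, hini]
  rw [had]
  have harg : argN ini B0 (num q) (num z) (lcN (num w) (num y) (bval (A.addr q))) =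
      num (A.arg w y q z) := by
    unfold argN PDM.arg
    rw [hlc, sdN_num, sdN_num, catN_num, catN_num]
  have hal : (A.arg w y q z).length ≤ 4 * T + 2 + R := by
    unfold PDM.arg
    rw [List.length_append, List.length_append, length_sd, length_sd]
    have := hR w[bval (A.addr q)]? y[bval (A.addr q)]?
    omega
  constructor
  · unfold valN
    rw [harg, hN _ hal]
    split_ifs with h
    · exact capN_num h
    · exact capN_zero _
  · unfold valN
    rw [harg, hO _ hal]
    split_ifs with h
    · exact capN_num h
    · exact capN_zero _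

theorem pd_mv (F : NF) (lc : ℕ → ℕ) (q z : ℕ) : (F.pd lc).mv q z =
    if F.kd q z (lc (F.ad q)) = 0 then .fail
    else if F.kd q z (lc (F.ad q)) = 1 then .pop (F.nq q z (lc (F.ad q)))
    else if F.kd q z (lc (F.ad q)) = 2 then
      .stay (F.nq q z (lc (F.ad q))) (F.nz q z (lc (F.ad q)))
    else .push (F.nq q z (lc (F.ad q))) (F.nz q z (lc (F.ad q))) := rfl

theorem nf_kd (q z l : ℕ) : (nf eA eN eO ini B0 T Λ β C).kd q z l =
    ifz (awN eA T Λ β C q * (valN eN ini B0 T Λ β C q z l *
    valN eO ini B0 T Λ β C q z l)) 0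
    (ifz (valN eO ini B0 T Λ β C q z l - 1) 1 (2 + valN eO ini B0 T Λ β C q z l % 2)) := rfl

theorem nf_nq (q z l : ℕ) : (nf eA eN eO ini B0 T Λ β C).nq q z l =
    valN eN ini B0 T Λ β C q z l := rfl

theorem nf_nz (q z l : ℕ) : (nf eA eN eO ini B0 T Λ β C).nz q z l =
    valN eO ini B0 T Λ β C q z l / 2 := rfl

theorem mv_eq (hA : Good A.addr eA T Λ β C (4 * T + 2 + R))
    (hN : Good A.next eN T Λ β C (4 * T + 2 + R)) (hO : Good A.act eO T Λ β C (4 * T + 2 + R))
    (hini : ∀ a b, dig B0 ini (3 * codeO a + codeO b) = num (A.read a b))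
    (hR : ∀ a b, (A.read a b).length ≤ R) {q z : List Bool} (hq : q.length ≤ T)
    (hz : z.length ≤ T) :
    (((nf eA eN eO ini B0 T Λ β C).pd (lcN (num w) (num y))).mv (num q) (num z) = .fail ∧
      ¬ ((A.addr q).length ≤ T ∧ (A.next (A.arg w y q z)).length ≤ T ∧
        (A.act (A.arg w y q z)).length ≤ T)) ∨
    ((A.next (A.arg w y q z)).length ≤ T ∧ (A.act (A.arg w y q z)).length ≤ T ∧
    ((nf eA eN eO ini B0 T Λ β C).pd (lcN (num w) (num y))).mv (num q) (num z) =
      match A.act (A.arg w y q z) with
      | [] => .pop (num (A.next (A.arg w y q z)))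
      | false :: z' => .stay (num (A.next (A.arg w y q z))) (num z')
      | true :: z' => .push (num (A.next (A.arg w y q z))) (num z')) := by
  obtain ⟨h1, h23⟩ := vals (w := w) (y := y) hA hN hO hini hR hq hz
  by_cases haw : (A.addr q).length ≤ T
  swap
  · left
    refine ⟨?_, fun h => haw h.1⟩
    rw [if_neg haw] at h1
    rw [pd_mv, nf_kd, h1, zero_mul, ifz_zero, if_pos rfl]
  rw [if_pos haw] at h1
  obtain ⟨h2, h3⟩ := h23 haw
  by_cases hnl : (A.next (A.arg w y q z)).length ≤ T
  swap
  · left
    refine ⟨?_, fun h => hnl h.2.1⟩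
    rw [if_neg hnl] at h2
    rw [pd_mv, nf_kd, h2, zero_mul, mul_zero, ifz_zero, if_pos rfl]
  by_cases hol : (A.act (A.arg w y q z)).length ≤ T
  swap
  · left
    refine ⟨?_, fun h => hol h.2.2⟩
    rw [if_neg hol] at h3
    rw [pd_mv, nf_kd, h3, mul_zero, mul_zero, ifz_zero, if_pos rfl]
  right
  refine ⟨hnl, hol, ?_⟩
  rw [if_pos hnl] at h2
  rw [if_pos hol] at h3
  have hne : num (A.addr q) * (num (A.next (A.arg w y q z)) * num (A.act (A.arg w y q z))) ≠ 0 :=
    (Nat.mul_pos (Pool.Agent.Helper65.LinSpace.num_pos _)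
      (Nat.mul_pos (Pool.Agent.Helper65.LinSpace.num_pos _)
        (Pool.Agent.Helper65.LinSpace.num_pos _))).ne'
  rw [pd_mv, nf_kd, nf_nq, nf_nz, h1, h2, h3, ifz_ne hne]
  rcases hact : A.act (A.arg w y q z) with _ | ⟨b, z'⟩
  · have e : num [] - 1 = 0 := rfl
    rw [e, ifz_zero, if_neg one_ne_zero, if_pos rfl]
  · have hp := Pool.Agent.Helper65.LinSpace.num_pos z'
    have e1 : num (b :: z') = b.toNat + 2 * num z' := rfl
    have e2 : num (b :: z') - 1 ≠ 0 := by
      rw [e1]
      omega
    rw [ifz_ne e2]
    have hb := Pool.Agent.Helper65.LinSpace.toNat_le_one b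
    have e3 : num (b :: z') % 2 = b.toNat := by
      rw [e1]
      omega
    have e4 : num (b :: z') / 2 = num z' := by
      rw [e1]
      omega
    rw [e3, e4]
    cases b
    · have : 2 + Bool.toNat false = 2 := rfl
      rw [this, if_neg (by norm_num), if_neg (by norm_num), if_pos rfl]
    · have : 2 + Bool.toNat true = 3 := rfl
      rw [this, if_neg (by norm_num), if_neg (by norm_num), if_neg (by norm_num)]

/-- The machine on numbers follows the machine on words, or stops. -/
theorem run_sound (hA : Good A.addr eA T Λ β C (4 * T + 2 + R))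
    (hN : Good A.next eN T Λ β C (4 * T + 2 + R)) (hO : Good A.act eO T Λ β C (4 * T + 2 + R))
    (hini : ∀ a b, dig B0 ini (3 * codeO a + codeO b) = num (A.read a b))
    (hR : ∀ a b, (A.read a b).length ≤ R) (hs : A.start.length ≤ T) (hb : A.bottom.length ≤ T)
    (t : ℕ) : ∃ t', (A.conf w y t').1.length ≤ T ∧ (∀ z ∈ (A.conf w y t').2, z.length ≤ T) ∧
      ((nf eA eN eO ini B0 T Λ β C).pd (lcN (num w) (num y))).run t
        (num A.start, [num A.bottom]) = (num (A.conf w y t').1, (A.conf w y t').2.map num) := by
  set P := (nf eA eN eO ini B0 T Λ β C).pd (lcN (num w) (num y)) with hP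
  induction t with
  | zero =>
    refine ⟨0, hs, fun z hz => ?_, rfl⟩
    have : z = A.bottom := by
      have hz' : z ∈ [A.bottom] := hz
      simpa using hz'
    rw [this]
    exact hb
  | succ t ih =>
    obtain ⟨t', h1, h2, h3⟩ := ih
    rw [P.run_add, P.run_one, h3]
    rcases hst : (A.conf w y t').2 with _ | ⟨z, st⟩
    · refine ⟨t', h1, h2, ?_⟩
      rw [hst]
      rfl
    · rw [hst] at h2
      have hz := h2 z (by simp)
      rcases mv_eq (w := w) (y := y) hA hN hO hini hR h1 hz with ⟨h, _⟩ | ⟨h4, h5, h⟩
      · refine ⟨t', h1, by rw [hst]; exact h2, ?_⟩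
        rw [hst]
        show P.step (num (A.conf w y t').1, num z :: st.map num) = _
        simp only [PD.step]
        rw [h]
        rfl
      · have hconf : A.conf w y (t' + 1) = (A.next (A.arg w y (A.conf w y t').1 z),
            store (A.act (A.arg w y (A.conf w y t').1 z)) z st) := by
          show A.step w y (A.conf w y t') = _
          have : A.conf w y t' = ((A.conf w y t').1, z :: st) := Prod.ext rfl hst
          conv_lhs => rw [this]
          rfl
        refine ⟨t' + 1, ?_, ?_, ?_⟩
        · rw [hconf]
          exact h4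
        · rw [hconf]
          intro x hx
          rcases hact : A.act (A.arg w y (A.conf w y t').1 z) with _ | ⟨b, z'⟩
          · rw [hact] at hx
            exact h2 x (by simp [store] at hx; simp [hx])
          · rw [hact] at hx h5
            simp only [List.length_cons] at h5
            cases b
            · rcases List.mem_cons.1 hx with rfl | hx
              · omega
              · exact h2 x (by simp [hx])
            · rcases List.mem_cons.1 hx with rfl | hx
              · omega
              · exact h2 x hx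
        · rw [hconf]
          show P.step (num (A.conf w y t').1, num z :: st.map num) = _
          simp only [PD.step]
          rw [h]
          rcases hact : A.act (A.arg w y (A.conf w y t').1 z) with _ | ⟨b, z'⟩
          · rfl
          · cases b <;> rfl

/-- The machine on numbers follows the machine on words. -/
theorem run_complete (hA : Good A.addr eA T Λ β C (4 * T + 2 + R))
    (hN : Good A.next eN T Λ β C (4 * T + 2 + R)) (hO : Good A.act eO T Λ β C (4 * T + 2 + R))
    (hini : ∀ a b, dig B0 ini (3 * codeO a + codeO b) = num (A.read a b))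
    (hR : ∀ a b, (A.read a b).length ≤ R) {r s : ℕ} (hf : A.Fits w y r s) (hsT : s + 1 ≤ T)
    (t : ℕ) (ht : t ≤ r) :
    ((nf eA eN eO ini B0 T Λ β C).pd (lcN (num w) (num y))).run t
      (num A.start, [num A.bottom]) = (num (A.conf w y t).1, (A.conf w y t).2.map num) := by
  set P := (nf eA eN eO ini B0 T Λ β C).pd (lcN (num w) (num y)) with hP
  induction t with
  | zero => rfl
  | succ t ih =>
    have h3 := ih (by omega)
    obtain ⟨f1, f2, f3⟩ := hf t (by omega)
    obtain ⟨g1, g2, g3⟩ := hf (t + 1) ht
    rw [P.run_add, P.run_one, h3]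
    rcases hst : (A.conf w y t).2 with _ | ⟨z, st⟩
    · have hconf : A.conf w y (t + 1) = A.conf w y t := by
        show A.step w y (A.conf w y t) = _
        have : A.conf w y t = ((A.conf w y t).1, []) := Prod.ext rfl hst
        conv_lhs => rw [this]
        rw [this]
        rfl
      rw [hconf, hst]
      rfl
    · rw [hst] at f3
      have hz := f3 z (by simp)
      have hconf : A.conf w y (t + 1) = (A.next (A.arg w y (A.conf w y t).1 z),
          store (A.act (A.arg w y (A.conf w y t).1 z)) z st) := by
        show A.step w y (A.conf w y t) = _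
        have : A.conf w y t = ((A.conf w y t).1, z :: st) := Prod.ext rfl hst
        conv_lhs => rw [this]
        rfl
      rw [hconf] at g1 g3 ⊢
      have hnl : (A.next (A.arg w y (A.conf w y t).1 z)).length ≤ T := by
        have : (A.next (A.arg w y (A.conf w y t).1 z)).length ≤ s := g1
        omega
      have hol : (A.act (A.arg w y (A.conf w y t).1 z)).length ≤ T := by
        rcases hact : A.act (A.arg w y (A.conf w y t).1 z) with _ | ⟨b, z'⟩
        · exact Nat.zero_le _
        · rw [hact] at g3
          have : z'.length ≤ s := by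
            cases b
            · exact g3 z' (by simp [store])
            · exact g3 z' (by simp [store])
          simp only [List.length_cons]
          omega
      rcases mv_eq (w := w) (y := y) hA hN hO hini hR (q := (A.conf w y t).1) (z := z)
        (by omega) (by omega) with ⟨_, h⟩ | ⟨h4, h5, h⟩
      · exact absurd ⟨by omega, hnl, hol⟩ h
      · show P.step (num (A.conf w y t).1, num z :: st.map num) = _
        simp only [PD.step]
        rw [h]
        rcases hact : A.act (A.arg w y (A.conf w y t).1 z) with _ | ⟨b, z'⟩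
        · rfl
        · cases b <;> rfl

end

end Pool.Agent.Helper20.APD
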